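import Mathlib

/-! Self-regulating pushdown automata (`MP_e3bf5d_lc`). -/

namespace Pool.Agent.X247.SR

/-- The rule `Z q x → γ p`; pushdown strings are written with the top symbol first. -/
structure Rule (Q A G : Type) where
  Z : G
  q : Q
  x : List A
  γ : List G
  p : Q

/-- Self-regulating pushdown automaton over the input alphabet `A`; the label of a rule is the
rule itself, `R` is the relation between labels, `qt` the turn state. -/
structure SRPDA (A : Type) where
  Q : Type
  G : Type
  finQ : Finite Q
  finG : Finite G
  rules : Set (Rule Q A G)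
  finR : rules.Finite
  q0 : Q
  qt : Q
  Z0 : G
  F : Set Q
  R : Rule Q A G → Rule Q A G → Prop

variable {A : Type}

/-- `Comp M (α, q, v) μ (β, p, u)`: the moves with labels `μ` lead from the configuration with
pushdown `α`, state `q`, unread input `v` to the one with `β`, `p`, `u`. -/
inductive Comp (M : SRPDA A) :
    List M.G × M.Q × List A → List (Rule M.Q A M.G) → List M.G × M.Q × List A → Prop
  | nil (c) : Comp M c [] c
  | cons (r : Rule M.Q A M.G) (hr : r ∈ M.rules) (α : List M.G) (v : List A) (μ) (c)
      (h : Comp M (r.γ ++ α, r.p, v) μ c) : Comp M (r.Z :: α, r.q, r.x ++ v) (r :: μ) c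

/-- `w` is accepted with `n` turns in the first-move mode: some accepting computation with labels
`μ` consists of `n + 1` blocks of the same length `k ≥ 1`, the last label of the first block is
the earliest one entering the turn state, and the first labels of consecutive blocks are
related. -/
def Accepts (M : SRPDA A) (n : ℕ) (w : List A) : Prop :=
  ∃ (μ : List (Rule M.Q A M.G)) (f : M.Q) (k : ℕ), f ∈ M.F ∧ Comp M ([M.Z0], M.q0, w) μ ([], f, []) ∧
    1 ≤ k ∧ μ.length = (n + 1) * k ∧
    (∃ r, μ[k - 1]? = some r ∧ r.p = M.qt) ∧
    (∀ t < k - 1, ∀ r, μ[t]? = some r → r.p ≠ M.qt) ∧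
    ∀ j < n, ∃ r s, μ[j * k]? = some r ∧ μ[(j + 1) * k]? = some s ∧ M.R r s

/-- The languages over `A` accepted by `n`-turn first-move self-regulating pushdown automata. -/
def FSPDA (A : Type) (n : ℕ) : Set (Set (List A)) :=
  {L | ∃ M : SRPDA A, L = {w | Accepts M n w}}

end Pool.Agent.X247.SR
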