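import Pool.Agent.X247.SR.Core
import Pool.Agent.X247.SR.Defs

/-! The annotated pushdown system of a self-regulating pushdown automaton and the lower bound. -/

namespace Pool.Agent.X247.SR

variable {m : ℕ} (M : SRPDA (Fin m)) (n : ℕ)

abbrev Rl := {r : Rule M.Q (Fin m) M.G // r ∈ M.rules}

/-- control state: nothing yet, or (block of the last move, first label of the block,
turn state entered). -/
abbrev Ct := Option (Fin (n + 1) × Rl M × Bool)

instance : Finite (Rl M) := M.finR.to_subtype
instance : Finite M.Q := M.finQ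
instance : Finite M.G := M.finG

variable {M n}

inductive CStep : Ct M n → Rl M → Ct M n → Prop
  | start (r : Rl M) (b : Bool) (hb : b = true ↔ r.1.p = M.qt) : CStep none r (some (0, r, b))
  | stay (j : Fin (n + 1)) (f r : Rl M) (b b' : Bool) (hj : b = true → j.val ≠ 0)
      (hb : b' = true ↔ (b = true ∨ r.1.p = M.qt)) : CStep (some (j, f, b)) r (some (j, f, b'))
  | adv (j j' : Fin (n + 1)) (f r : Rl M) (hj : j'.val = j.val + 1) (hR : M.R f.1 r.1) :
      CStep (some (j, f, true)) r (some (j', r, true))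

variable (M n)

abbrev AR := {x : Rl M × (Ct M n × Ct M n) × (Fin (m + 1) × Fin (m + 1)) //
  CStep x.2.1.1 x.1 x.2.1.2 ∧ x.2.2.1.val ≤ x.2.2.2.val ∧
    ∀ l ∈ x.1.1.x, x.2.2.1.val ≤ l.val ∧ l.val ≤ x.2.2.2.val}

abbrev AK := M.Q × Ct M n × Fin (m + 1)

/-- The annotated system. -/
def AS : PDS (AK M n) M.G (AR M n) where
  src x := (x.1.1.1.q, x.1.2.1.1, x.1.2.2.1)
  pop x := x.1.1.1.Z
  psh x := x.1.1.1.γ
  tgt x := (x.1.1.1.p, x.1.2.1.2, x.1.2.2.2)
  ph k := k.2.2.val
  lt x w := (x.1.1.1.x.map Fin.val).count w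
  mono x := x.2.2.1
  lt_mem x w h := by
    have h1 : w ∈ x.1.1.1.x.map Fin.val := by
      by_contra hc
      exact h (List.count_eq_zero.2 hc)
    obtain ⟨l, hl, rfl⟩ := List.mem_map.1 h1
    exact x.2.2.2 l hl

/-- the block weight -/
def bl (x : AR M n) (j : ℕ) : ℕ :=
  match x.1.2.1.2 with
  | none => 0
  | some c => if c.1.val = j then 1 else 0

variable {M n}

/-- The computation underlying an annotated run. -/
theorem run_comp {k : AK M n} {α : List M.G} {ν : List (AR M n)} {k' : AK M n} {β : List M.G}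
    (h : Run (AS M n) k α ν k' β) (v : List (Fin m)) :
    Comp M (α, k.1, ν.flatMap (fun x => x.1.1.1.x) ++ v) (ν.map (fun x => x.1.1.1)) (β, k'.1, v) := by
  induction h with
  | nil k α => exact Comp.nil _
  | cons r α μ k' β h ih =>
    simp only [List.flatMap_cons, List.map_cons, List.append_assoc]
    exact Comp.cons r.1.1.1 r.1.1.2 α _ _ _ ih

/-- partial sums -/
def ps (c : ℕ → ℕ) (l : ℕ) : ℕ := ∑ i ∈ Finset.range l, c i

theorem ps_succ (c : ℕ → ℕ) (l : ℕ) : ps c (l + 1) = ps c l + c l := Finset.sum_range_succ _ _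

theorem ps_mono (c : ℕ → ℕ) {a b : ℕ} (h : a ≤ b) : ps c a ≤ ps c b :=
  Finset.sum_le_sum_of_subset (Finset.range_mono h)

/-- Invariant of the control component. -/
def Inv (M : SRPDA (Fin m)) (n : ℕ) (μ : List (Rule M.Q (Fin m) M.G)) (c : Ct M n)
    (cnt : ℕ → ℕ) : Prop :=
  match c with
  | none => μ = [] ∧ ∀ l, cnt l = 0
  | some (j, f, b) =>
    μ.length = ps cnt (j.val + 1) ∧ (∀ l, j.val < l → cnt l = 0) ∧ 1 ≤ cnt j.val ∧
    1 ≤ cnt 0 ∧
    μ[ps cnt j.val]? = some f.1 ∧
    (∀ l < j.val, ∃ r s, μ[ps cnt l]? = some r ∧ μ[ps cnt (l + 1)]? = some s ∧ M.R r s) ∧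
    (b = false → j.val = 0 ∧ ∀ (t : ℕ) (r : Rule M.Q (Fin m) M.G), μ[t]? = some r → r.p ≠ M.qt) ∧
    (b = true → (∃ r, μ[cnt 0 - 1]? = some r ∧ r.p = M.qt) ∧
      ∀ t < cnt 0 - 1, ∀ r, μ[t]? = some r → r.p ≠ M.qt)

theorem get_append {α : Type} {μ : List α} {t : ℕ} {r s : α} (h : μ[t]? = some r) :
    (μ ++ [s])[t]? = some r := by
  have ht : t < μ.length := by
    by_contra hc
    rw [List.getElem?_eq_none (by omega)] at h
    exact absurd h (by simp)
  rw [List.getElem?_append_left ht]
  exact h

theorem get_append_cases {α : Type} {μ : List α} {t : ℕ} {r s : α} (h : (μ ++ [s])[t]? = some r) :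
    μ[t]? = some r ∨ (t = μ.length ∧ r = s) := by
  rcases lt_trichotomy t μ.length with h1 | h1 | h1
  · rw [List.getElem?_append_left h1] at h; exact Or.inl h
  · subst h1
    rw [List.getElem?_append_right le_rfl] at h
    simp at h
    exact Or.inr ⟨rfl, h.symm⟩
  · rw [List.getElem?_eq_none (by simp; omega)] at h
    exact absurd h (by simp)

theorem inv_step {μ : List (Rule M.Q (Fin m) M.G)} {c : Ct M n} {cnt : ℕ → ℕ} {x : AR M n}
    (hx : x.1.2.1.1 = c) (h : Inv M n μ c cnt) :
    Inv M n (μ ++ [x.1.1.1]) x.1.2.1.2 (fun l => cnt l + bl M n x l) := by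
  obtain ⟨⟨r, ⟨c1, c2⟩, a⟩, hc, ha⟩ := x
  simp only at hx hc ha ⊢
  subst hx
  cases hc with
  | start r b hb =>
    obtain ⟨h1, h2⟩ := h
    subst h1
    simp only [Inv, bl, List.nil_append, Fin.val_zero]
    refine ⟨?_, ?_, ?_, ?_, ?_, ?_, ?_, ?_⟩
    · simp [ps, h2]
    · intro l hl
      rw [if_neg (by omega), h2]
    · simp
    · simp
    · simp [ps]
    · intro l hl; omega
    · intro hbf
      refine ⟨trivial, ?_⟩
      intro t r' hr' hq
      rcases t with _ | t
      · simp at hr'
        rw [← hr'] at hq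
        rw [hb.2 hq] at hbf
        exact absurd hbf (by simp)
      · simp at hr'
    · intro hbt
      simp only [h2, if_true]
      refine ⟨⟨r.1, by simp, hb.1 hbt⟩, ?_⟩
      intro t ht; omega
  | stay j f r b b' hj hb =>
    obtain ⟨h1, h2, h3, h3', h4, h5, h6, h7⟩ := h
    have hps : ∀ l ≤ j.val, ps (fun l => cnt l + bl M n
        ⟨(r, (some (j, f, b), some (j, f, b')), a), CStep.stay j f r b b' hj hb, ha⟩ l) l = ps cnt l := by
      intro l hl
      unfold ps
      apply Finset.sum_congr rfl
      intro i hi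
      rw [Finset.mem_range] at hi
      simp only [bl]
      rw [if_neg (by omega)]; rfl
    simp only [Inv]
    have hbl : ∀ l, bl M n ⟨(r, (some (j, f, b), some (j, f, b')), a),
        CStep.stay j f r b b' hj hb, ha⟩ l = if j.val = l then 1 else 0 := fun l => rfl
    refine ⟨?_, ?_, ?_, ?_, ?_, ?_, ?_, ?_⟩
    · rw [ps_succ, hps _ le_rfl, hbl, if_pos rfl, List.length_append, h1, ps_succ]
      simp; omega
    · intro l hl
      rw [hbl, if_neg (by omega), h2 l hl]
    · omega
    · omega
    · rw [hps _ le_rfl]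
      exact get_append h4
    · intro l hl
      rw [hps l (by omega), hps (l + 1) (by omega)]
      obtain ⟨r1, s1, e1, e2, e3⟩ := h5 l hl
      exact ⟨r1, s1, get_append e1, get_append e2, e3⟩
    · intro hbf
      have hb1 : b = false := by
        cases b
        · rfl
        · rw [hb.2 (Or.inl rfl)] at hbf; exact absurd hbf (by simp)
      obtain ⟨h8, h9⟩ := h6 hb1
      refine ⟨h8, ?_⟩
      intro t r' hr'
      rcases get_append_cases hr' with h | ⟨_, h⟩
      · exact h9 t r' h
      · intro hq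
        rw [h] at hq
        rw [hb.2 (Or.inr hq)] at hbf
        exact absurd hbf (by simp)
    · intro hbt
      rcases (Bool.eq_false_or_eq_true b) with hb1 | hb1
      · -- already turned: j ≠ 0
        have hj0 := hj hb1
        obtain ⟨⟨r1, e1, e2⟩, e3⟩ := h7 hb1
        rw [hbl, if_neg hj0, add_zero]
        refine ⟨⟨r1, get_append e1, e2⟩, ?_⟩
        intro t ht r' hr'
        rcases get_append_cases hr' with h | ⟨h, _⟩
        · exact e3 t ht r' h
        · exfalso
          have : cnt 0 ≤ μ.length := by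
            rw [h1]
            have h10 := ps_mono cnt (show 1 ≤ j.val + 1 by omega)
            have h11 : ps cnt 1 = cnt 0 := by simp [ps]
            omega
          omega
      · obtain ⟨h8, h9⟩ := h6 hb1
        have hq : r.1.p = M.qt := by
          rcases hb.1 hbt with h | h
          · rw [hb1] at h; exact absurd h (by simp)
          · exact h
        have hlen : μ.length = cnt 0 := by rw [h1, h8]; simp [ps]
        rw [hbl, if_pos h8]
        refine ⟨⟨r.1, ?_, hq⟩, ?_⟩
        · rw [Nat.add_sub_cancel, ← hlen, List.getElem?_append_right le_rfl]; simp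
        · intro t ht r' hr'
          rcases get_append_cases hr' with h | ⟨h, _⟩
          · exact h9 t r' h
          · omega
  | adv j j' f r hj hR =>
    obtain ⟨h1, h2, h3, h3', h4, h5, h6, h7⟩ := h
    have hbl : ∀ l, bl M n ⟨(r, (some (j, f, true), some (j', r, true)), a),
        CStep.adv j j' f r hj hR, ha⟩ l = if j'.val = l then 1 else 0 := fun l => rfl
    have hps : ∀ l ≤ j'.val, ps (fun l => cnt l + bl M n
        ⟨(r, (some (j, f, true), some (j', r, true)), a), CStep.adv j j' f r hj hR, ha⟩ l) l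
          = ps cnt l := by
      intro l hl
      unfold ps
      apply Finset.sum_congr rfl
      intro i hi
      rw [Finset.mem_range] at hi
      beta_reduce
      rw [hbl, if_neg (by omega)]; rfl
    simp only [Inv]
    refine ⟨?_, ?_, ?_, ?_, ?_, ?_, ?_, ?_⟩
    · rw [ps_succ, hps _ le_rfl, hbl, if_pos rfl, List.length_append, h1, hj, h2 (j.val + 1) (by omega)]
      simp
    · intro l hl
      rw [hbl, if_neg (by omega), h2 l (by omega)]
    · rw [hbl, if_pos rfl]; omega
    · omega
    · rw [hps _ le_rfl, hj, ← h1, List.getElem?_append_right le_rfl]; simp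
    · intro l hl
      rw [hps l (by omega), hps (l + 1) (by omega)]
      by_cases hlj : l = j.val
      · refine ⟨f.1, r.1, ?_, ?_, hR⟩
        · rw [hlj]; exact get_append h4
        · rw [hlj, ← h1, List.getElem?_append_right le_rfl]; simp
      · obtain ⟨r1, s1, e1, e2, e3⟩ := h5 l (by omega)
        exact ⟨r1, s1, get_append e1, get_append e2, e3⟩
    · intro h; exact absurd h (by simp)
    · intro _
      obtain ⟨⟨r1, e1, e2⟩, e3⟩ := h7 rfl
      rw [hbl, if_neg (by omega), add_zero]
      refine ⟨⟨r1, get_append e1, e2⟩, ?_⟩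
      intro t ht r' hr'
      rcases get_append_cases hr' with h | ⟨h, _⟩
      · exact e3 t ht r' h
      · exfalso
        have : cnt 0 ≤ μ.length := by
          rw [h1]
          have h10 := ps_mono cnt (show 1 ≤ j.val + 1 by omega)
          have h11 : ps cnt 1 = cnt 0 := by simp [ps]
          omega
        omega

theorem inv_run {k : AK M n} {α : List M.G} {ν : List (AR M n)} {k' : AK M n} {β : List M.G}
    (h : Run (AS M n) k α ν k' β) : ∀ (μ : List (Rule M.Q (Fin m) M.G)) (cnt : ℕ → ℕ),
    Inv M n μ k.2.1 cnt →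
      Inv M n (μ ++ ν.map (fun x => x.1.1.1)) k'.2.1
        (fun l => cnt l + (ν.map (fun x => bl M n x l)).sum) := by
  induction h with
  | nil k α => intro μ cnt h; simpa using h
  | cons r α ν k' β h ih =>
    intro μ cnt hI
    have := ih (μ ++ [r.1.1.1]) _ (inv_step (x := r) rfl hI)
    simpa [List.append_assoc, add_assoc] using this

/-! ### from computations to annotated runs -/

/-- the control state at time `t` -/
def CtlAt (μ : List (Rule M.Q (Fin m) M.G)) (k t : ℕ) (c : Ct M n) : Prop :=
  (t = 0 ∧ c = none) ∨ ∃ j f b, c = some (j, f, b) ∧ 1 ≤ t ∧ j.val = (t - 1) / k ∧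
    μ[j.val * k]? = some f.1 ∧ (b = true ↔ k ≤ t)

theorem ctl_step {μ : List (Rule M.Q (Fin m) M.G)} {k : ℕ} (hk : 1 ≤ k)
    (hlen : μ.length = (n + 1) * k)
    (h1 : ∃ r, μ[k - 1]? = some r ∧ r.p = M.qt)
    (h2 : ∀ t < k - 1, ∀ r, μ[t]? = some r → r.p ≠ M.qt)
    (h3 : ∀ j < n, ∃ r s, μ[j * k]? = some r ∧ μ[(j + 1) * k]? = some s ∧ M.R r s)
    {t : ℕ} (ht : t < μ.length) {c : Ct M n} (hc : CtlAt μ k t c) {r : Rl M}
    (hr : μ[t]? = some r.1) :
    ∃ c', CtlAt μ k (t + 1) c' ∧ CStep c r c' ∧ ∃ j f b, c' = some (j, f, b) ∧ j.val = t / k := by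
  classical
  have hq : r.1.p = M.qt ∨ t ≠ k - 1 := by
    by_cases h : t = k - 1
    · left
      obtain ⟨r1, e1, e2⟩ := h1
      rw [h, e1] at hr
      rw [← e2]; rw [Option.some.inj hr]
    · exact Or.inr h
  have hq2 : t < k - 1 → r.1.p ≠ M.qt := fun h => h2 t h _ hr
  rcases hc with ⟨ht0, hc⟩ | ⟨j, f, b, hc, ht1, hj, hf, hb⟩
  · subst ht0 hc
    refine ⟨some (0, r, decide (r.1.p = M.qt)), Or.inr ⟨0, r, _, rfl, le_rfl, by simp, ?_, ?_⟩,
      CStep.start r _ (by simp), 0, r, _, rfl, by simp⟩
    · simpa using hr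
    · rw [decide_eq_true_iff]
      constructor
      · intro h
        by_contra hcon
        exact hq2 (by omega) h
      · intro h
        rcases hq with h' | h'
        · exact h'
        · omega
  · subst hc
    obtain ⟨t, rfl⟩ : ∃ t', t = t' + 1 := ⟨t - 1, by omega⟩
    simp only [Nat.add_sub_cancel] at hj
    have hsd : (t + 1) / k = t / k + if k ∣ t + 1 then 1 else 0 := Nat.succ_div
    by_cases hdvd : k ∣ t + 1
    · -- advance
      rw [if_pos hdvd] at hsd
      have hbt : b = true := hb.2 (Nat.le_of_dvd (by omega) hdvd)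
      have htk : t + 1 = (j.val + 1) * k := by
        rw [hj, ← hsd]
        exact (Nat.div_mul_cancel hdvd).symm
      have hjn : j.val + 1 ≤ n := by
        by_contra hcon
        have : (n + 1) * k ≤ (j.val + 1) * k := Nat.mul_le_mul_right _ (by omega)
        omega
      subst hbt
      refine ⟨some (⟨j.val + 1, by omega⟩, r, true), Or.inr ⟨_, r, _, rfl, by omega, ?_, ?_, ?_⟩,
        CStep.adv j _ f r rfl ?_, _, r, _, rfl, ?_⟩
      · simp only [Nat.add_sub_cancel]; rw [hsd, hj]
      · simp only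
        rw [← htk]; exact hr
      · constructor
        · intro _
          have := Nat.le_of_dvd (by omega) hdvd
          omega
        · intro _; rfl
      · obtain ⟨r1, s1, e1, e2, e3⟩ := h3 j.val (by omega)
        rw [hf] at e1
        rw [← htk, hr] at e2
        rw [Option.some.inj e1, Option.some.inj e2]
        exact e3
      · simp only; rw [hsd, hj]
    · rw [if_neg hdvd, add_zero] at hsd
      refine ⟨some (j, f, decide (k ≤ t + 2)), Or.inr ⟨j, f, _, rfl, by omega, ?_, hf, by simp⟩,
        CStep.stay j f r b _ ?_ ?_, j, f, _, rfl, ?_⟩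
      · simp only [Nat.add_sub_cancel]; rw [hsd, hj]
      · intro hbt
        have h4 := hb.1 hbt
        have h5 : 1 ≤ (t + 1) / k := (Nat.one_le_div_iff (by omega)).2 h4
        omega
      · rw [decide_eq_true_iff, hb]
        constructor
        · intro h
          by_cases h' : k ≤ t + 1
          · exact Or.inl h'
          · right
            rcases hq with h'' | h''
            · exact h''
            · omega
        · rintro (h | h)
          · omega
          · by_contra hcon
            exact hq2 (by omega) h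
      · rw [hsd, hj]

theorem letter_split {x v : List (Fin m)} (h : (x ++ v).Pairwise (· ≤ ·)) (a : Fin (m + 1))
    (ha : ∀ l ∈ x ++ v, a.val ≤ l.val) :
    ∃ a' : Fin (m + 1), a.val ≤ a'.val ∧ (∀ l ∈ x, a.val ≤ l.val ∧ l.val ≤ a'.val) ∧
      ∀ l ∈ v, a'.val ≤ l.val := by
  rcases List.eq_nil_or_concat x with rfl | ⟨y, z, rfl⟩
  · exact ⟨a, le_rfl, by simp, fun l hl => ha l (by simpa using hl)⟩
  · rw [List.pairwise_append] at h
    obtain ⟨h1, _, h3⟩ := h
    refine ⟨⟨z.val, by omega⟩, ha z (by simp), ?_, ?_⟩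
    · intro l hl
      refine ⟨ha l (by simp only [List.mem_append]; exact Or.inl hl), ?_⟩
      simp only [List.concat_eq_append, List.mem_append, List.mem_singleton] at hl
      rcases hl with hl | hl
      · rw [List.concat_eq_append, List.pairwise_append] at h1
        exact h1.2.2 l hl z (by simp)
      · rw [hl]
    · intro l hl
      exact h3 z (by simp) l hl

theorem comp_run {μ : List (Rule M.Q (Fin m) M.G)} {k : ℕ} (hk : 1 ≤ k)
    (hlen : μ.length = (n + 1) * k)
    (h1 : ∃ r, μ[k - 1]? = some r ∧ r.p = M.qt)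
    (h2 : ∀ t < k - 1, ∀ r, μ[t]? = some r → r.p ≠ M.qt)
    (h3 : ∀ j < n, ∃ r s, μ[j * k]? = some r ∧ μ[(j + 1) * k]? = some s ∧ M.R r s)
    {c0 c1 : List M.G × M.Q × List (Fin m)} {μ2 : List (Rule M.Q (Fin m) M.G)}
    (h : Comp M c0 μ2 c1) : c1.1 = [] → c1.2.2 = [] → ∀ t, t ≤ μ.length → μ.drop t = μ2 →
      ∀ c, CtlAt (n := n) μ k t c → ∀ a : Fin (m + 1), c0.2.2.Pairwise (· ≤ ·) →
      (∀ l ∈ c0.2.2, a.val ≤ l.val) →
      ∃ ν c' a', Run (AS M n) (c0.2.1, c, a) c0.1 ν (c1.2.1, c', a') [] ∧
        CtlAt μ k μ.length c' ∧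
        (∀ w, (ν.map (fun x => (AS M n).lt x w)).sum = (c0.2.2.map Fin.val).count w) ∧
        ∀ j, (ν.map (fun x => bl M n x j)).sum =
          ∑ t' ∈ Finset.Ico t μ.length, if t' / k = j then 1 else 0 := by
  induction h with
  | nil c =>
    intro e1 e2 t ht hd c' hc a _ _
    have : t = μ.length := by
      have := congrArg List.length hd
      simp at this
      omega
    subst this
    obtain ⟨α, q, v⟩ := c
    simp only at e1 e2 ⊢
    subst e1 e2
    exact ⟨[], c', a, Run.nil _ _, hc, by simp, by simp⟩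
  | cons r hr α v μ' c1 h ih =>
    intro e1 e2 t ht hd c hc a hs ha
    have htl : t < μ.length := by
      by_contra hcon
      rw [List.drop_eq_nil_of_le (by omega)] at hd
      exact absurd hd (by simp)
    have hget : μ[t]? = some r := by
      have h4 : (μ.drop t)[0]? = some r := by rw [hd]; rfl
      simpa using h4
    have hd' : μ.drop (t + 1) = μ' := by
      have h4 : (μ.drop t).drop 1 = μ' := by rw [hd]; rfl
      rwa [List.drop_drop] at h4
    obtain ⟨c2, hc2, hst, j2, f2, b2, hc2e, hj2⟩ :=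
      ctl_step hk hlen h1 h2 h3 htl hc (r := ⟨r, hr⟩) hget
    simp only at hs ha
    obtain ⟨a', ha1, ha2, ha3⟩ := letter_split hs a ha
    obtain ⟨ν, c', a'', hrun, hcc, hlt, hbl⟩ := ih e1 e2 (t + 1) (by omega) hd' c2 hc2 a'
      ((List.pairwise_append.1 hs).2.1) ha3
    let x : AR M n := ⟨(⟨r, hr⟩, (c, c2), (a, a')), hst, ha1, ha2⟩
    refine ⟨x :: ν, c', a'', ?_, hcc, ?_, ?_⟩
    · exact Run.cons (S := AS M n) x α ν _ _ hrun
    · intro w
      simp only [List.map_cons, List.sum_cons, List.map_append, List.count_append]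
      rw [hlt w]
      rfl
    · intro j
      simp only [List.map_cons, List.sum_cons]
      rw [hbl j, Finset.sum_eq_sum_Ico_succ_bot htl]
      congr 1
      simp only [bl, x, hc2e, hj2]

theorem block_count (k : ℕ) (hk : 1 ≤ k) (j N : ℕ) :
    (∑ t ∈ Finset.range (N * k), if t / k = j then 1 else 0) = if j < N then k else 0 := by
  induction N with
  | zero => simp
  | succ N ih =>
    rw [Nat.succ_mul, Finset.sum_range_add, ih]
    have : ∀ x ∈ Finset.range k, (if (N * k + x) / k = j then 1 else 0) = if N = j then 1 else 0 := by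
      intro x hx
      rw [Finset.mem_range] at hx
      rw [show N * k + x = x + N * k by ring, Nat.add_mul_div_right _ _ (by omega),
        Nat.div_eq_of_lt hx, zero_add]
    rw [Finset.sum_congr rfl this]
    by_cases hj : N = j
    · subst hj
      simp
    · simp only [hj, if_false, Finset.sum_const_zero, add_zero]
      by_cases h : j < N
      · rw [if_pos h, if_pos (by omega)]
      · rw [if_neg h, if_neg (by omega)]

/-- the word `a₀ⁱ a₁ⁱ ⋯ a_{m-1}ⁱ` -/
def word (m i : ℕ) : List (Fin m) := (List.finRange m).flatMap (List.replicate i)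

theorem word_sorted (m i : ℕ) : (word m i).Pairwise (· ≤ ·) := by
  unfold word
  rw [List.pairwise_flatMap]
  refine ⟨?_, ?_⟩
  · intro a _
    rw [List.pairwise_replicate]
    exact Or.inr le_rfl
  · have := List.pairwise_lt_finRange m
    refine this.imp ?_
    intro a b hab x hx y hy
    rw [List.eq_of_mem_replicate hx, List.eq_of_mem_replicate hy]
    exact hab.le

theorem word_count (m i : ℕ) (a : Fin m) : (word m i).count a = i := by
  unfold word
  rw [List.count_flatMap]
  have h1 : (List.count a ∘ List.replicate i) = fun b => if b = a then i else 0 := by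
    funext b
    simp only [Function.comp_apply, List.count_replicate]
    by_cases h : b = a
    · simp [h]
    · simp [h]
  rw [h1]
  have h2 : ((List.finRange m).map (fun b => if b = a then i else 0)).sum =
      ∑ b : Fin m, if b = a then i else 0 := by
    rw [← List.ofFn_eq_map, List.sum_ofFn]
  rw [h2]
  simp

theorem val_count {m : ℕ} (w : List (Fin m)) (a : Fin m) :
    (w.map Fin.val).count a.val = w.count a := by
  rw [List.count_map_of_injective _ _ Fin.val_injective]

/-- The language `{a₀ⁱ ⋯ a_{m-1}ⁱ : i ≥ 1}`. -/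
def Lm (m : ℕ) : Set (List (Fin m)) := {w | ∃ i, 1 ≤ i ∧ w = word m i}

theorem lower (n m : ℕ) (hm : 2 * n + 3 ≤ m) : Lm m ∉ FSPDA (Fin m) n := by
  rintro ⟨M, hM⟩
  let 𝒳 : Set (AK M n × M.G × AK M n) := {X | X.1 = (M.q0, none, 0) ∧ X.2.1 = M.Z0 ∧
    X.2.2.1 ∈ M.F ∧ ∃ j f, X.2.2.2.1 = some (j, f, true) ∧ j.val = n}
  have hlw : ∀ (V : Multiset (Pr (AS M n))) (ν : List (AR M n)) (w : ℕ),
      V.map (fun p => p.rule) = ↑ν →
      lw (AS M n) w V = (ν.map (fun x => (AS M n).lt x w)).sum := by
    intro V ν w h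
    have h1 : lw (AS M n) w V = ((V.map (fun p => p.rule)).map (fun x => (AS M n).lt x w)).sum := by
      rw [Multiset.map_map]; rfl
    rw [h1, h, Multiset.map_coe, Multiset.sum_coe]
  have hbw : ∀ (V : Multiset (Pr (AS M n))) (ν : List (AR M n)) (j : ℕ),
      V.map (fun p => p.rule) = ↑ν →
      bw (AS M n) (bl M n) j V = (ν.map (fun x => bl M n x j)).sum := by
    intro V ν w h
    have h1 : bw (AS M n) (bl M n) w V =
        ((V.map (fun p => p.rule)).map (fun x => bl M n x w)).sum := by
      rw [Multiset.map_map]; rfl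
    rw [h1, h, Multiset.map_coe, Multiset.sum_coe]
  obtain ⟨X, ⟨hX1, hX2, hX3, j, f', hX4, hjn⟩, V, hV, hb, w, w', hw, hw', hne⟩ :=
    core (S := AS M n) (bl M n) n m hm 𝒳 (by
      intro i hi
      have hmem : word m i ∈ Lm m := ⟨i, hi, rfl⟩
      rw [hM] at hmem
      obtain ⟨μ, f, k, hf, hcomp, hk, hlen, h1, h2, h3⟩ := hmem
      obtain ⟨ν, c', a', hrun, hcc, hlt, hbl⟩ := comp_run (n := n) hk hlen h1 h2 h3 hcomp rfl rfl 0
        (by omega) rfl none (Or.inl ⟨rfl, rfl⟩) 0 (word_sorted m i) (fun l _ => by simp)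
      obtain ⟨ss, hl, he, _, V, hV, hVν⟩ := run_to_der hrun rfl
      have hss : ss = [(f, c', a')] := by
        rcases ss with _ | ⟨s, _ | ⟨s', ss⟩⟩
        · simp at hl
        · simp only [endS] at he; rw [he]
        · simp at hl
      subst hss
      refine ⟨((M.q0, none, 0), M.Z0, (f, c', a')), ⟨rfl, rfl, hf, ?_⟩, V, ?_, ?_, ?_⟩
      · rcases hcc with ⟨h0, _⟩ | ⟨j, f', b, hce, _, hj, _, hb⟩
        · exfalso
          have : 1 ≤ (n + 1) * k := Nat.mul_pos (by omega) hk
          omega
        · have hbt : b = true := hb.2 (by rw [hlen]; exact Nat.le_mul_of_pos_left _ (by omega))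
          subst hbt
          refine ⟨j, f', hce, ?_⟩
          rw [hj, hlen]
          have h5 : (n + 1) * k - 1 = (k - 1) + n * k := by
            have : (n + 1) * k = n * k + k := Nat.succ_mul _ _
            omega
          rw [h5, Nat.add_mul_div_right _ _ (by omega), Nat.div_eq_of_lt (by omega), zero_add]
      · simpa [chain] using hV
      · intro w hw
        rw [hlw V ν w hVν, hlt w]
        have := val_count (word m i) ⟨w, hw⟩
        simp only at this
        rw [this, word_count]
      · intro j hj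
        rw [hbw V ν j hVν, hbw V ν (j + 1) hVν, hbl, hbl, ← Finset.range_eq_Ico, hlen,
          block_count k hk, block_count k hk, if_pos (by omega), if_pos (by omega)])
  obtain ⟨X1, X2, X3⟩ := X
  simp only at hX1 hX2 hX3 hX4 hV
  subst hX1 hX2
  obtain ⟨ν, hrun, hVν⟩ := der_to_run (S := AS M n) _ V rfl (M.q0, none, 0) [M.Z0] [X3] rfl
    (by simpa [chain] using hV)
  simp only [endS] at hrun
  have hcomp := run_comp hrun []
  rw [List.append_nil] at hcomp
  have hinv := inv_run hrun [] (fun _ => 0) ⟨rfl, fun _ => rfl⟩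
  rw [hX4, List.nil_append] at hinv
  simp only [Inv, zero_add] at hinv
  obtain ⟨i1, i2, i3, i3', i4, i5, _, i7⟩ := hinv
  have i7 := i7 trivial
  rw [hjn] at i1 i3 i5
  set cnt : ℕ → ℕ := fun l => (ν.map (fun x => bl M n x l)).sum with hcnt
  have hcb : ∀ l, cnt l = bw (AS M n) (bl M n) l V := fun l => (hbw V ν l hVν).symm
  have hceq : ∀ l ≤ n, cnt l = cnt 0 := by
    intro l
    induction l with
    | zero => intro _; rfl
    | succ l ih =>
      intro hl
      rw [← ih (by omega), hcb, hcb]
      exact (hb l (by omega)).symm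
  have hps : ∀ l ≤ n + 1, ps cnt l = l * cnt 0 := by
    intro l
    induction l with
    | zero => intro _; simp [ps]
    | succ l ih =>
      intro hl
      rw [ps_succ, ih (by omega), hceq l (by omega), Nat.succ_mul]
  have hacc : Accepts M n (ν.flatMap (fun x => x.1.1.1.x)) := by
    refine ⟨_, X3.1, cnt 0, hX3, hcomp, i3', ?_, i7.1, i7.2, ?_⟩
    · rw [i1, hps _ le_rfl]
    · intro l hl
      obtain ⟨r, s, e1, e2, e3⟩ := i5 l hl
      rw [hps l (by omega)] at e1
      rw [hps (l + 1) (by omega)] at e2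
      exact ⟨r, s, e1, e2, e3⟩
  have hmem : (ν.flatMap (fun x => x.1.1.1.x)) ∈ Lm m := by rw [hM]; exact hacc
  obtain ⟨i, _, hi⟩ := hmem
  have hfin : ∀ w < m, lw (AS M n) w V = i := by
    intro w hw
    rw [hlw V ν w hVν]
    have h5 : (ν.map (fun x => (AS M n).lt x w)).sum =
        ((ν.flatMap (fun x => x.1.1.1.x)).map Fin.val).count w := by
      rw [List.map_flatMap, List.count_flatMap]
      rfl
    rw [h5, hi]
    have := val_count (word m i) ⟨w, hw⟩
    simp only at this
    rw [this, word_count]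
  exact hne (by rw [hfin w hw, hfin w' hw'])

end Pool.Agent.X247.SR
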