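import Pool.Agent.X247.SR.Pds

/-! The counting argument: a pushdown system with monotone phases cannot keep `m ≥ 2n+3` letters
equal by `n` block equalities. -/

namespace Pool.Agent.X247.SR

/-- Additive weight. -/
def wt {P : Type} (f : P → ℕ) : Multiset P →+ ℕ :=
  Multiset.sumAddMonoidHom.comp (Multiset.mapAddMonoidHom f)

theorem wt_apply {P : Type} (f : P → ℕ) (V : Multiset P) : wt f V = (V.map f).sum := rfl

def lhsHom {N P : Type} (𝒢 : CG N P) : Multiset P →+ Multiset N := Multiset.mapAddMonoidHom 𝒢.lhs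

def rhsHom {N P : Type} (𝒢 : CG N P) : Multiset P →+ Multiset N where
  toFun V := V.bind 𝒢.rhs
  map_zero' := by simp
  map_add' := by intro a b; simp

def Hom {N P : Type} (𝒢 : CG N P) (V : Multiset P) : Prop := lhsHom 𝒢 V = rhsHom 𝒢 V

variable {K Γ R : Type} {S : PDS K Γ R}

/-- number of letters `w` -/
def lw (S : PDS K Γ R) (w : ℕ) : Multiset (Pr S) →+ ℕ := wt (fun p => S.lt p.rule w)
/-- number of rules in block `j` -/
def bw (S : PDS K Γ R) (bl : R → ℕ → ℕ) (j : ℕ) : Multiset (Pr S) →+ ℕ :=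
  wt (fun p => bl p.rule j)

theorem pump_hom {N P : Type} {𝒢 : CG N P} {X : N} {c : Multiset P}
    (h : Der 𝒢 {X} {X} c) : Hom 𝒢 c := by
  have := h.balance
  rw [add_comm] at this
  exact (add_right_cancel this).symm

theorem free_letter (C : Finset ℕ) (m : ℕ) (h : C.card < m) : ∃ w, w < m ∧ w ∉ C := by
  by_contra hc
  push Not at hc
  have : Finset.range m ⊆ C := fun w hw => hc w (Finset.mem_range.1 hw)
  have := Finset.card_le_card this
  rw [Finset.card_range] at this
  omega

theorem select (d : Multiset (Pr S)) (m : ℕ) (hd : Hom (gram S) d)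
    (hpos : ∀ w < m, 0 < lw S w d) (s : ℕ) (hs : 2 * s < m + 2) :
    ∃ (us : Fin s → Multiset (Pr S)) (ws : Fin s → ℕ) (C : Finset ℕ), C.card ≤ 2 * s ∧
      (∀ t, us t ≤ d ∧ Hom (gram S) (us t) ∧ ws t < m ∧ 0 < lw S (ws t) (us t)) ∧
      (∀ t t', t < t' → lw S (ws t) (us t') = 0) ∧ (∀ t, ∀ w, w ∉ C → lw S w (us t) = 0) := by
  classical
  induction s with
  | zero => exact ⟨Fin.elim0, Fin.elim0, ∅, by simp, fun t => t.elim0, fun t => t.elim0,
      fun t => t.elim0⟩
  | succ s ih =>
    obtain ⟨us, ws, C, hC, h1, h2, h3⟩ := ih (by omega)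
    obtain ⟨w, hw, hwC⟩ := free_letter C m (by omega)
    obtain ⟨U, hU1, hU2⟩ := decompose (𝒢 := gram S) d hd
    have hu : ∃ u ∈ U, 0 < lw S w u.2 := by
      by_contra hc
      push Not at hc
      have h := hpos w hw
      rw [← hU2, map_multiset_sum] at h
      have : ((U.map (fun u => u.2)).map (lw S w)).sum = 0 := by
        rw [Multiset.sum_eq_zero_iff]
        intro x hx
        rw [Multiset.map_map] at hx
        obtain ⟨u, hu, rfl⟩ := Multiset.mem_map.1 hx
        exact Nat.le_zero.1 (hc u hu)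
      omega
    obtain ⟨u, huU, hupos⟩ := hu
    have hule : u.2 ≤ d := by
      rw [← hU2]
      obtain ⟨U', hU'⟩ := Multiset.exists_cons_of_mem huU
      rw [hU', Multiset.map_cons, Multiset.sum_cons]
      exact Multiset.le_add_right _ _
    refine ⟨Fin.cons u.2 us, Fin.cons w ws, C ∪ {S.ph u.1.1, S.ph u.1.2.2}, ?_, ?_, ?_, ?_⟩
    · have h4 := Finset.card_union_le C {S.ph u.1.1, S.ph u.1.2.2}
      have h5 : ({S.ph u.1.1, S.ph u.1.2.2} : Finset ℕ).card ≤ 2 := Finset.card_le_two
      omega
    · intro t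
      refine Fin.cases ?_ ?_ t
      · exact ⟨hule, pump_hom (hU1 u huU), hw, hupos⟩
      · intro t'; exact h1 t'
    · intro t t' htt
      revert htt
      refine Fin.cases ?_ ?_ t
      · refine Fin.cases ?_ ?_ t'
        · intro h; exact absurd h (lt_irrefl _)
        · intro t'' _
          simp only [Fin.cons_zero, Fin.cons_succ]
          exact h3 t'' w hwC
      · intro t1
        refine Fin.cases ?_ ?_ t'
        · intro h; exact absurd h (by simp)
        · intro t'' h
          simp only [Fin.cons_succ]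
          exact h2 t1 t'' (by simpa using h)
    · intro t
      refine Fin.cases ?_ ?_ t
      · intro w' hw'
        simp only [Finset.mem_union, Finset.mem_insert, Finset.mem_singleton, not_or] at hw'
        simp only [Fin.cons_zero]
        exact pump_letters (hU1 u huU) w' (fun h => hw'.2.1 h.symm) (fun h => hw'.2.2 h.symm)
      · intro t' w' hw'
        simp only [Finset.mem_union, not_or] at hw'
        simp only [Fin.cons_succ]
        exact h3 t' w' hw'.1

theorem dickson [Finite K] [Finite Γ] [Finite R] {𝒳 : Set (K × Γ × K)}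
    {Q : ℕ → Multiset (Pr S) → Prop}
    (H : ∀ i, 1 ≤ i → ∃ X ∈ 𝒳, ∃ V, Der (gram S) {X} 0 V ∧ Q i V) :
    ∃ X ∈ 𝒳, ∃ i i' V V', i < i' ∧ V ≤ V' ∧ (∀ p ∈ V', p ∈ V) ∧ Der (gram S) {X} 0 V ∧
      Der (gram S) {X} 0 V' ∧ Q i V ∧ Q i' V' := by
  classical
  choose X hX V hV hQ using fun i : ℕ => H (i + 1) (by omega)
  obtain ⟨X0, hX0⟩ := Finite.exists_infinite_fiber X
  have hinf : (X ⁻¹' {X0}).Infinite := Set.infinite_coe_iff.1 hX0
  let e := Nat.orderEmbeddingOfSet (X ⁻¹' {X0})
  have he : ∀ a, X (e a) = X0 := by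
    intro a
    have h1 : e a ∈ Set.range e := ⟨a, rfl⟩
    have h2 : Set.range e = X ⁻¹' {X0} := Nat.orderEmbeddingOfSet_range _
    rw [h2] at h1
    exact h1
  let y : ℕ → (Pr S → ℕ × ℕ) := fun a p =>
    ((V (e a)).count p, if (V (e a)).count p = 0 then 1 else 0)
  obtain ⟨a, b, hab, hle⟩ := (wellQuasiOrdered_le (α := Pr S → ℕ × ℕ)) y
  refine ⟨X0, ?_, e a + 1, e b + 1, V (e a), V (e b), ?_, ?_, ?_, ?_, ?_, hQ _, hQ _⟩
  · rw [← he 0]; exact hX _
  · have := e.strictMono hab
    omega
  · rw [Multiset.le_iff_count]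
    intro p
    exact (hle p).1
  · intro p hp
    by_contra hc
    have h1 := (hle p).2
    simp only [y] at h1
    rw [if_pos (Multiset.count_eq_zero.2 hc), if_neg (by
      rw [Multiset.count_eq_zero]; exact fun h => h hp)] at h1
    omega
  · have := hV (e a); rw [he a] at this; exact this
  · have := hV (e b); rw [he b] at this; exact this

theorem core [Finite K] [Finite Γ] [Finite R] (bl : R → ℕ → ℕ) (n m : ℕ) (hm : 2 * n + 3 ≤ m)
    (𝒳 : Set (K × Γ × K))
    (H : ∀ i, 1 ≤ i → ∃ X ∈ 𝒳, ∃ V, Der (gram S) {X} 0 V ∧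
      ((∀ w < m, lw S w V = i) ∧ ∀ j < n, bw S bl j V = bw S bl (j + 1) V)) :
    ∃ X ∈ 𝒳, ∃ V, Der (gram S) {X} 0 V ∧ (∀ j < n, bw S bl j V = bw S bl (j + 1) V) ∧
      ∃ w w', w < m ∧ w' < m ∧ lw S w V ≠ lw S w' V := by
  classical
  obtain ⟨X, hX, i, i', V, V', hii, hle, hsupp, hD, hD', ⟨hl, hb⟩, hl', hb'⟩ := dickson H
  obtain ⟨d, rfl⟩ := Multiset.le_iff_exists_add.1 hle
  have hld : ∀ w < m, lw S w d = i' - i := by
    intro w hw
    have h1 := hl w hw
    have h2 := hl' w hw
    rw [map_add] at h2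
    omega
  have hbd : ∀ j < n, bw S bl j d = bw S bl (j + 1) d := by
    intro j hj
    have h1 := hb j hj
    have h2 := hb' j hj
    rw [map_add, map_add] at h2
    omega
  have hdh : Hom (gram S) d := by
    have h1 := hD.balance
    have h2 := hD'.balance
    rw [add_zero] at h1 h2
    have h3 : ({X} : Multiset _) + rhsHom (gram S) V = lhsHom (gram S) V := h1
    have h4 : ({X} : Multiset _) + rhsHom (gram S) (V + d) = lhsHom (gram S) (V + d) := h2
    rw [map_add, map_add, ← add_assoc, h3] at h4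
    exact (add_left_cancel h4).symm
  obtain ⟨us, ws, C, hC, h1, h2, h3⟩ := select d m hdh
    (fun w hw => by rw [hld w hw]; omega) (n + 1) (by omega)
  -- the integer relation
  let M : Matrix (Fin (n + 1)) (Fin (n + 1)) ℤ := fun j t =>
    if j.val < n then (bw S bl j.val (us t) : ℤ) - bw S bl (j.val + 1) (us t) else 0
  have hdet : M.det = 0 := Matrix.det_eq_zero_of_row_eq_zero (Fin.last n) (by
    intro t; simp [M])
  obtain ⟨z, hz, hMz⟩ := Matrix.exists_mulVec_eq_zero_iff.2 hdet
  let A : Multiset (Pr S) := ∑ t, (-z t).toNat • us t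
  let B : Multiset (Pr S) := ∑ t, (z t).toNat • us t
  let N : ℕ := ∑ t, (-z t).toNat
  have hA : A ≤ N • d := by
    simp only [A, N]
    rw [Finset.sum_smul]
    exact Finset.sum_le_sum (fun t _ => nsmul_le_nsmul_right (h1 t).1 _)
  obtain ⟨e0, he0⟩ := Multiset.le_iff_exists_add.1 hA
  obtain ⟨e, hedef⟩ : ∃ e, e = e0 + B := ⟨_, rfl⟩
  have heA : e + A = N • d + B := by
    rw [hedef, he0]; abel
  have hφ : ∀ φ : Multiset (Pr S) →+ ℕ, (φ e : ℤ) = N * φ d + ∑ t, z t * φ (us t) := by
    intro φ
    have h4 : φ e + φ A = N * φ d + φ B := by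
      rw [← map_add, heA, map_add, map_nsmul, smul_eq_mul]
    have h5 : φ A = ∑ t, (-z t).toNat * φ (us t) := by
      simp only [A]; rw [map_sum]; simp
    have h6 : φ B = ∑ t, (z t).toNat * φ (us t) := by
      simp only [B]; rw [map_sum]; simp
    rw [h5, h6] at h4
    have h7 : ((φ e : ℤ)) + ∑ t, ((-z t).toNat : ℤ) * φ (us t) =
        N * φ d + ∑ t, ((z t).toNat : ℤ) * φ (us t) := by exact_mod_cast h4
    have h8 : ∑ t, z t * (φ (us t) : ℤ) =
        ∑ t, ((z t).toNat : ℤ) * φ (us t) - ∑ t, ((-z t).toNat : ℤ) * φ (us t) := by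
      rw [← Finset.sum_sub_distrib]
      apply Finset.sum_congr rfl
      intro t _
      rw [← sub_mul]
      congr 1
      exact (Int.toNat_sub_toNat_neg (z t)).symm
    rw [h8]
    linarith
  have heh : Hom (gram S) e := by
    have hAh : Hom (gram S) A := by
      unfold Hom
      simp only [A]
      rw [map_sum, map_sum]
      apply Finset.sum_congr rfl
      intro t _
      rw [map_nsmul, map_nsmul, (h1 t).2.1]
    have hBh : Hom (gram S) B := by
      unfold Hom
      simp only [B]
      rw [map_sum, map_sum]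
      apply Finset.sum_congr rfl
      intro t _
      rw [map_nsmul, map_nsmul, (h1 t).2.1]
    have h4 : lhsHom (gram S) (e + A) = rhsHom (gram S) (e + A) := by
      rw [heA, map_add, map_add, map_nsmul, map_nsmul, hdh, hBh]
    rw [map_add, map_add, hAh] at h4
    exact add_right_cancel h4
  have hes : ∀ p ∈ e, (gram S).lhs p ∈ V.map (gram S).lhs := by
    have hd' : ∀ p ∈ d, (gram S).lhs p ∈ V.map (gram S).lhs := fun p hp =>
      Multiset.mem_map_of_mem _ (hsupp p (Multiset.mem_add.2 (Or.inr hp)))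
    intro p hp
    have hp' : p ∈ N • d + B := by rw [← heA]; exact Multiset.mem_add.2 (Or.inl hp)
    rcases Multiset.mem_add.1 hp' with h | h
    · exact hd' p (Multiset.mem_of_mem_nsmul h)
    · simp only [B] at h
      rw [Multiset.mem_sum] at h
      obtain ⟨t, _, ht⟩ := h
      exact hd' p (Multiset.mem_of_le (h1 t).1 (Multiset.mem_of_mem_nsmul ht))
  have hfin := hD.add_balanced heh hes
  refine ⟨X, hX, V + e, hfin, ?_, ?_⟩
  · intro j hj
    have h4 := hφ (bw S bl j)
    have h5 := hφ (bw S bl (j + 1))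
    have h6 : ∑ t, z t * (bw S bl j (us t) : ℤ) = ∑ t, z t * (bw S bl (j + 1) (us t) : ℤ) := by
      have h7 := congrFun hMz ⟨j, by omega⟩
      simp only [Matrix.mulVec, dotProduct, M, Pi.zero_apply] at h7
      simp only [hj, if_true] at h7
      rw [← sub_eq_zero, ← Finset.sum_sub_distrib, ← h7]
      apply Finset.sum_congr rfl
      intro t _
      ring
    have h8 := hb j hj
    have h9 := hbd j hj
    rw [map_add, map_add]
    have : (bw S bl j e : ℤ) = bw S bl (j + 1) e := by
      rw [h4, h5, h6, h9]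
    have : bw S bl j e = bw S bl (j + 1) e := by exact_mod_cast this
    omega
  · by_contra hcon
    push Not at hcon
    apply hz
    -- uncovered letter
    obtain ⟨y, hy, hyC⟩ := free_letter C m (by omega)
    have hzero : ∀ w < m, ∑ t, z t * (lw S w (us t) : ℤ) = 0 := by
      intro w hw
      have h4 := hcon w y hw hy
      rw [map_add, map_add, hl w hw, hl y hy] at h4
      have h5 := hφ (lw S w)
      have h6 := hφ (lw S y)
      rw [hld w hw] at h5
      rw [hld y hy] at h6
      have h7 : (lw S w e : ℤ) = lw S y e := by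
        have : lw S w e = lw S y e := by omega
        exact_mod_cast this
      have h8 : ∑ t, z t * (lw S y (us t) : ℤ) = 0 := by
        apply Finset.sum_eq_zero
        intro t _
        rw [h3 t y hyC]; simp
      rw [h8] at h6
      linarith
    have key : ∀ (q : ℕ) (hq : q < n + 1), z ⟨q, hq⟩ = 0 := by
      intro q
      induction q using Nat.strong_induction_on with
      | _ q ih =>
        intro hq
        have h4 := hzero (ws ⟨q, hq⟩) (h1 ⟨q, hq⟩).2.2.1
        rw [Finset.sum_eq_single ⟨q, hq⟩] at h4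
        · rcases mul_eq_zero.1 h4 with h5 | h5
          · exact h5
          · have h6 := (h1 ⟨q, hq⟩).2.2.2
            have h7 : lw S (ws ⟨q, hq⟩) (us ⟨q, hq⟩) = 0 := by exact_mod_cast h5
            omega
        · intro t _ ht
          rcases lt_trichotomy t.val q with h5 | h5 | h5
          · rw [ih t.val h5 t.isLt]; simp
          · exact absurd (Fin.ext h5) ht
          · rw [h2 ⟨q, hq⟩ t h5]; simp
        · intro h; exact absurd (Finset.mem_univ _) h
    funext t
    exact key t.val t.isLt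

end Pool.Agent.X247.SR
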