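import Mathlib

/-! Commutative grammars: partial derivations, decomposition of balanced sets of productions into
pumps, and insertion of pumps (for `MP_e3bf5d_lc`). -/

namespace Pool.Agent.X247.SR

/-- A commutative grammar: each production replaces one nonterminal by a multiset of them. -/
structure CG (N P : Type) where
  lhs : P → N
  rhs : P → Multiset N

variable {N P : Type} (𝒢 : CG N P)

/-- `Der A B V`: the multiset `A` can be rewritten to `B` using the multiset `V` of productions. -/
inductive Der : Multiset N → Multiset N → Multiset P → Prop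
  | refl (O : Multiset N) : Der O O 0
  | step (p : P) (O O' : Multiset N) (V : Multiset P) (h : Der (𝒢.rhs p + O) O' V) :
      Der (𝒢.lhs p ::ₘ O) O' (p ::ₘ V)

variable {𝒢}

theorem Der.frame {A B : Multiset N} {V : Multiset P} (h : Der 𝒢 A B V) (C : Multiset N) :
    Der 𝒢 (A + C) (B + C) V := by
  induction h with
  | refl O => exact Der.refl _
  | step p O O' V h ih =>
    rw [Multiset.cons_add]
    apply Der.step
    rw [← add_assoc]; exact ih

theorem Der.trans {A B C : Multiset N} {V W : Multiset P} (h : Der 𝒢 A B V)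
    (h2 : Der 𝒢 B C W) : Der 𝒢 A C (V + W) := by
  induction h with
  | refl O => simpa using h2
  | step p O O' V h ih =>
    rw [Multiset.cons_add]
    exact Der.step _ _ _ _ (ih h2)

theorem Der.exchange {A : Multiset N} {V : Multiset P} (h : Der 𝒢 A 0 V) :
    ∀ X O, A = X ::ₘ O → ∃ p W, 𝒢.lhs p = X ∧ V = p ::ₘ W ∧ Der 𝒢 (𝒢.rhs p + O) 0 W := by
  generalize hB : (0 : Multiset N) = B at h
  induction h with
  | refl O =>
    intro X O' hO
    subst hB
    exact absurd hO.symm (Multiset.cons_ne_zero)
  | step q O1 O' V1 h ih =>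
    intro X O hXO
    subst hB
    rcases Multiset.cons_eq_cons.1 hXO with ⟨h1, h2⟩ | ⟨hne, cs, h1, h2⟩
    · subst h2
      exact ⟨q, V1, h1, rfl, h⟩
    · subst h1 h2
      obtain ⟨p, W, hp, hV, hD⟩ := ih rfl X (𝒢.rhs q + cs) (by
        rw [Multiset.add_cons])
      refine ⟨p, q ::ₘ W, hp, ?_, ?_⟩
      · rw [hV, Multiset.cons_swap]
      · rw [Multiset.add_cons]
        apply Der.step
        rw [← add_assoc, add_comm (𝒢.rhs q), add_assoc]
        exact hD

theorem Der.insert {A : Multiset N} {V : Multiset P} (h : Der 𝒢 A 0 V) {X : N}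
    {c : Multiset P} (hc : Der 𝒢 {X} {X} c) (hX : X ∈ V.map 𝒢.lhs) : Der 𝒢 A 0 (V + c) := by
  generalize hB : (0 : Multiset N) = B at h
  induction h with
  | refl O => simp at hX
  | step q O O' V1 h ih =>
    subst hB
    by_cases hq : 𝒢.lhs q = X
    · have h1 := (hc.frame O).trans (W := q ::ₘ V1) (C := 0) (by
        have := Der.step (𝒢 := 𝒢) q O 0 V1 h
        rw [hq] at this
        simpa using this)
      rw [add_comm]
      rw [hq]
      simpa using h1
    · rw [Multiset.cons_add]
      apply Der.step
      have hX' : X ∈ V1.map 𝒢.lhs := by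
        simp only [Multiset.map_cons, Multiset.mem_cons] at hX
        rcases hX with h | h
        · exact absurd h.symm hq
        · exact h
      exact ih hX' rfl

theorem Der.root_mem {X : N} {B : Multiset N} {c : Multiset P} (h : Der 𝒢 {X} B c)
    (hc : c ≠ 0) : X ∈ c.map 𝒢.lhs := by
  generalize hA : ({X} : Multiset N) = A at h
  cases h with
  | refl => exact absurd rfl hc
  | step p O _ V h =>
    have : 𝒢.lhs p = X := by
      have h1 : 𝒢.lhs p ∈ ({X} : Multiset N) := by rw [hA]; simp
      simpa using h1
    simp [this]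

/-- Pieces: merge until each piece is a pump. -/
theorem merge_pieces [DecidableEq N] [DecidableEq P] (n : ℕ) :
    ∀ W : Multiset (N × Multiset N × Multiset P), Multiset.card W = n →
      (∀ w ∈ W, Der 𝒢 {w.1} w.2.1 w.2.2) →
      W.map (fun w => w.1) = (W.map (fun w => w.2.1)).sum →
      ∃ U : Multiset (N × Multiset P), (∀ u ∈ U, Der 𝒢 {u.1} {u.1} u.2) ∧
        (U.map (fun u => u.2)).sum = (W.map (fun w => w.2.2)).sum := by
  induction n with
  | zero =>
    intro W hW _ _
    rw [Multiset.card_eq_zero] at hW
    subst hW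
    exact ⟨0, by simp, by simp⟩
  | succ n ih =>
    intro W hW hD hbal
    by_cases hm : ∃ w1 ∈ W, ∃ w2 ∈ W.erase w1, w2.1 ∈ w1.2.1
    · obtain ⟨w1, h1, w2, h2, h12⟩ := hm
      obtain ⟨W', hW'⟩ := Multiset.exists_cons_of_mem h1
      subst hW'
      rw [Multiset.erase_cons_head] at h2
      obtain ⟨W'', hW''⟩ := Multiset.exists_cons_of_mem h2
      subst hW''
      obtain ⟨O1, hO1⟩ := Multiset.exists_cons_of_mem h12
      have hd1 := hD w1 (by simp)
      have hd2 := hD w2 (by simp)
      have hd : Der 𝒢 {w1.1} (w2.2.1 + O1) (w1.2.2 + w2.2.2) := by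
        rw [hO1] at hd1
        refine hd1.trans ?_
        have := hd2.frame O1
        simpa using this
      obtain ⟨U, hU1, hU2⟩ := ih ((w1.1, w2.2.1 + O1, w1.2.2 + w2.2.2) ::ₘ W'') (by
          simp only [Multiset.card_cons] at hW ⊢; omega) (by
          intro w hw
          rcases Multiset.mem_cons.1 hw with h | h
          · subst h; exact hd
          · exact hD w (by simp [h])) (by
          simp only [Multiset.map_cons, Multiset.sum_cons] at hbal ⊢
          rw [hO1] at hbal
          have : w2.1 ::ₘ (w1.1 ::ₘ Multiset.map (fun w => w.1) W'') =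
              w2.1 ::ₘ (w2.2.1 + O1 + (Multiset.map (fun w => w.2.1) W'').sum) := by
            rw [Multiset.cons_swap, hbal]
            simp only [Multiset.cons_add]
            rw [← add_assoc, add_comm O1]
          exact (Multiset.cons_inj_right _).1 this)
      refine ⟨U, hU1, ?_⟩
      rw [hU2]
      simp only [Multiset.map_cons, Multiset.sum_cons]
      rw [add_assoc]
    · push Not at hm
      refine ⟨W.map (fun w => (w.1, w.2.2)), ?_, by simp⟩
      intro u hu
      obtain ⟨w, hw, rfl⟩ := Multiset.mem_map.1 hu
      have hd := hD w hw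
      suffices h : w.2.1 = {w.1} by
        rw [h] at hd
        exact hd
      have hall : ∀ Y ∈ w.2.1, Y = w.1 := by
        intro Y hY
        have h1 : Y ∈ (W.map (fun w => w.2.1)).sum :=
          Multiset.mem_join.2 ⟨w.2.1, Multiset.mem_map_of_mem _ hw, hY⟩
        rw [← hbal] at h1
        obtain ⟨w', hw', rfl⟩ := Multiset.mem_map.1 h1
        by_contra hne
        have hne' : w' ≠ w := fun h => hne (by rw [h])
        exact hm w hw w' ((Multiset.mem_erase_of_ne hne').2 hw') hY
      have hin : w.1 ∈ w.2.1 := by
        have h1 : w.1 ∈ W.map (fun w => w.1) := Multiset.mem_map_of_mem _ hw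
        rw [hbal] at h1
        obtain ⟨O, hO, hwO⟩ := Multiset.mem_join.1 h1
        obtain ⟨w', hw', rfl⟩ := Multiset.mem_map.1 hO
        by_cases hww : w' = w
        · rw [hww] at hwO; exact hwO
        · exact absurd hwO (hm w' hw' w ((Multiset.mem_erase_of_ne (Ne.symm hww)).2 hw))
      have hrep : w.2.1 = Multiset.replicate (Multiset.card w.2.1) w.1 :=
        Multiset.eq_replicate_card.2 hall
      obtain ⟨W', hW'⟩ := Multiset.exists_cons_of_mem hw
      have hcount : (W.map (fun w => w.1)).count w.1 = 1 := by
        rw [hW', Multiset.map_cons, Multiset.count_cons_self]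
        have : (Multiset.map (fun w => w.1) W').count w.1 = 0 := by
          rw [Multiset.count_eq_zero]
          intro hc
          obtain ⟨w', hw', he⟩ := Multiset.mem_map.1 hc
          have hw'' : w' ∈ W.erase w := by rw [hW', Multiset.erase_cons_head]; exact hw'
          exact hm w hw w' hw'' (by rw [he]; exact hin)
        omega
      have hle : w.2.1.count w.1 ≤ 1 := by
        rw [← hcount, hbal, hW', Multiset.map_cons, Multiset.sum_cons, Multiset.count_add]
        omega
      rw [hrep, Multiset.count_replicate_self] at hle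
      have hpos : 0 < Multiset.card w.2.1 := Multiset.card_pos_iff_exists_mem.2 ⟨_, hin⟩
      have : Multiset.card w.2.1 = 1 := by omega
      rw [hrep, this]
      rfl

/-- A balanced multiset of productions is a sum of pumps. -/
theorem decompose (V : Multiset P) (hV : V.map 𝒢.lhs = V.bind 𝒢.rhs) :
    ∃ U : Multiset (N × Multiset P), (∀ u ∈ U, Der 𝒢 {u.1} {u.1} u.2) ∧
      (U.map (fun u => u.2)).sum = V := by
  classical
  obtain ⟨U, h1, h2⟩ := merge_pieces (𝒢 := 𝒢) (Multiset.card V)
    (V.map (fun p => (𝒢.lhs p, 𝒢.rhs p, {p}))) (by simp) (by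
      intro w hw
      obtain ⟨p, _, rfl⟩ := Multiset.mem_map.1 hw
      have := Der.step (𝒢 := 𝒢) p 0 (𝒢.rhs p) 0 (by simpa using Der.refl _)
      simpa using this) (by
      rw [Multiset.map_map, Multiset.map_map]
      simpa [Multiset.bind, Multiset.join, Function.comp_def] using hV)
  refine ⟨U, h1, ?_⟩
  rw [h2, Multiset.map_map]
  simp [Function.comp_def]

/-- Adding a balanced multiset of productions on used nonterminals. -/
theorem Der.add_balanced {A : Multiset N} {V e : Multiset P} (h : Der 𝒢 A 0 V)
    (he : e.map 𝒢.lhs = e.bind 𝒢.rhs) (hs : ∀ p ∈ e, 𝒢.lhs p ∈ V.map 𝒢.lhs) :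
    Der 𝒢 A 0 (V + e) := by
  classical
  obtain ⟨U, h1, rfl⟩ := decompose e he
  clear he
  induction U using Multiset.induction with
  | empty => simpa using h
  | cons u U ih =>
    have ih' := ih (fun u hu => h1 u (by simp [hu])) (fun p hp => hs p (by
      simp only [Multiset.map_cons, Multiset.sum_cons, Multiset.mem_add]; exact Or.inr hp))
    simp only [Multiset.map_cons, Multiset.sum_cons]
    rw [add_comm u.2, ← add_assoc]
    by_cases hu : u.2 = 0
    · rw [hu, add_zero]; exact ih'
    · refine ih'.insert (h1 u (by simp)) ?_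
      have hroot := (h1 u (by simp)).root_mem hu
      obtain ⟨p, hp, hpe⟩ := Multiset.mem_map.1 hroot
      have h2 := hs p (by
        simp only [Multiset.map_cons, Multiset.sum_cons, Multiset.mem_add]; exact Or.inl hp)
      rw [hpe] at h2
      rw [Multiset.map_add]
      exact Multiset.mem_add.2 (Or.inl h2)

theorem Der.balance {A B : Multiset N} {V : Multiset P} (h : Der 𝒢 A B V) :
    A + V.bind 𝒢.rhs = V.map 𝒢.lhs + B := by
  induction h with
  | refl O => simp
  | step p O O' V h ih =>
    simp only [Multiset.cons_bind, Multiset.map_cons, Multiset.cons_add]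
    rw [← ih]
    congr 1
    abel

end Pool.Agent.X247.SR
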