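import Pool.Agent.X247.SR.Upper

/-! `FSPDA n ⊆ FSPDA (n + 1)`: a first block of idle moves. -/

namespace Pool.Agent.X247.SR

open Classical

variable {A : Type} (M : SRPDA A)

noncomputable def nxt (s : Fin 5) (r : Rule M.Q A M.G) : Fin 5 :=
  if s = 1 ∨ s = 2 then (if r.p = M.qt then 3 else 2) else 4

noncomputable def tag (s : Fin 5) (r : Rule M.Q A M.G) : Rule (Fin 5 × M.Q) A M.G :=
  ⟨r.Z, (s, r.q), r.x, r.γ, (nxt M s r, r.p)⟩

def unt (r : Rule (Fin 5 × M.Q) A M.G) : Rule M.Q A M.G := ⟨r.Z, r.q.2, r.x, r.γ, r.p.2⟩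

def dd : Rule (Fin 5 × M.Q) A M.G := ⟨M.Z0, (0, M.q0), [], [M.Z0], (0, M.q0)⟩
def dt : Rule (Fin 5 × M.Q) A M.G := ⟨M.Z0, (0, M.q0), [], [M.Z0], (1, M.q0)⟩

noncomputable def IM (n : ℕ) : SRPDA A where
  Q := Fin 5 × M.Q
  G := M.G
  finQ := by have := M.finQ; infer_instance
  finG := M.finG
  rules := {dd M, dt M} ∪ (fun x : Fin 5 × Rule M.Q A M.G => tag M x.1 x.2) ''
    ({s | s ≠ 0} ×ˢ M.rules)
  finR := by
    refine Set.Finite.union (by simp) (Set.Finite.image _ ?_)
    exact (Set.toFinite _).prod M.finR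
  q0 := (0, M.q0)
  qt := (1, M.q0)
  Z0 := M.Z0
  F := {x | x.2 ∈ M.F ∧ x.1 = if n = 0 then 3 else 4}
  R r s := r.q.1 = 0 ∨ (M.R (unt M r) (unt M s) ∧ (r.q.1 = 1 → s.q.1 = 3))

noncomputable def tagL : Fin 5 → List (Rule M.Q A M.G) → List (Rule (Fin 5 × M.Q) A M.G)
  | _, [] => []
  | s, r :: μ => tag M s r :: tagL (nxt M s r) μ

noncomputable def endP : Fin 5 → List (Rule M.Q A M.G) → Fin 5
  | s, [] => s
  | s, r :: μ => endP (nxt M s r) μ

variable {M}

theorem nxt_ne (s : Fin 5) (r : Rule M.Q A M.G) : nxt M s r ≠ 0 := by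
  unfold nxt
  split_ifs <;> decide

theorem unt_tag (s : Fin 5) (r : Rule M.Q A M.G) : unt M (tag M s r) = r := rfl

theorem tagL_length (s : Fin 5) (μ : List (Rule M.Q A M.G)) : (tagL M s μ).length = μ.length := by
  induction μ generalizing s with
  | nil => rfl
  | cons r μ ih => simp [tagL, ih]

theorem tagL_get (μ : List (Rule M.Q A M.G)) : ∀ (s : Fin 5) (t : ℕ),
    (tagL M s μ)[t]? = (μ[t]?).map (tag M (endP M s (μ.take t))) := by
  induction μ with
  | nil => intro s t; simp [tagL]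
  | cons r μ ih =>
    intro s t
    rcases t with _ | t
    · simp [tagL, endP]
    · simp [tagL, endP, ih]

theorem endP_append (μ ν : List (Rule M.Q A M.G)) : ∀ s, endP M s (μ ++ ν) = endP M (endP M s μ) ν := by
  induction μ with
  | nil => intro s; rfl
  | cons r μ ih => intro s; exact ih _

theorem endP_no (μ : List (Rule M.Q A M.G)) (h : ∀ r ∈ μ, r.p ≠ M.qt) :
    ∀ s : Fin 5, s = 1 ∨ s = 2 → endP M s μ = 1 ∨ endP M s μ = 2 := by
  induction μ with
  | nil => intro s hs; exact hs
  | cons r μ ih =>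
    intro s hs
    have h1 : nxt M s r = 2 := by
      unfold nxt
      rw [if_pos hs, if_neg (h r (by simp))]
    simp only [endP, h1]
    exact ih (fun r hr => h r (by simp [hr])) 2 (Or.inr rfl)

theorem endP_four (μ : List (Rule M.Q A M.G)) : endP M 4 μ = 4 := by
  induction μ with
  | nil => rfl
  | cons r μ ih =>
    have h1 : nxt M 4 r = 4 := by
      unfold nxt
      rw [if_neg (by decide)]
    simp only [endP, h1, ih]

theorem endP_three (r : Rule M.Q A M.G) (μ : List (Rule M.Q A M.G)) : endP M 3 (r :: μ) = 4 := by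
  have h1 : nxt M 3 r = 4 := by
    unfold nxt
    rw [if_neg (by decide)]
  simp only [endP, h1, endP_four]

theorem endP_turn (μ : List (Rule M.Q A M.G)) (h : ∀ r ∈ μ, r.p ≠ M.qt) (r : Rule M.Q A M.G)
    (hr : r.p = M.qt) : endP M 1 (μ ++ [r]) = 3 := by
  rw [endP_append]
  have h1 := endP_no μ h 1 (Or.inl rfl)
  simp only [endP]
  unfold nxt
  rw [if_pos h1, if_pos hr]

theorem endP_inv (μ : List (Rule M.Q A M.G)) : ∀ s : Fin 5, s = 1 ∨ s = 2 → endP M s μ = 3 →
    ∃ μ0 r, μ = μ0 ++ [r] ∧ r.p = M.qt ∧ ∀ r' ∈ μ0, r'.p ≠ M.qt := by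
  induction μ with
  | nil =>
    intro s hs h
    simp only [endP] at h
    rcases hs with hs | hs <;> rw [hs] at h <;> exact absurd h (by decide)
  | cons r μ ih =>
    intro s hs h
    simp only [endP] at h
    by_cases hr : r.p = M.qt
    · have h1 : nxt M s r = 3 := by
        unfold nxt
        rw [if_pos hs, if_pos hr]
      rw [h1] at h
      rcases μ with _ | ⟨r', μ⟩
      · exact ⟨[], r, rfl, hr, by simp⟩
      · rw [endP_three] at h
        exact absurd h (by decide)
    · have h1 : nxt M s r = 2 := by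
        unfold nxt
        rw [if_pos hs, if_neg hr]
      rw [h1] at h
      obtain ⟨μ0, r0, e1, e2, e3⟩ := ih 2 (Or.inr rfl) h
      refine ⟨r :: μ0, r0, by rw [e1]; rfl, e2, ?_⟩
      intro r' hr'
      rcases List.mem_cons.1 hr' with h' | h'
      · rw [h']; exact hr
      · exact e3 r' h'

theorem comp_tag (n : ℕ) {c0 c1} {μ} (h : Comp M c0 μ c1) : ∀ s : Fin 5, s ≠ 0 →
    Comp (IM M n) (c0.1, (s, c0.2.1), c0.2.2) (tagL M s μ) (c1.1, (endP M s μ, c1.2.1), c1.2.2) := by
  induction h with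
  | nil c => intro s _; exact Comp.nil _
  | cons r hr α v μ c h ih =>
    intro s hs
    exact Comp.cons (M := IM M n) (tag M s r) (Or.inr ⟨(s, r), ⟨hs, hr⟩, rfl⟩) α v _ _
      (ih (nxt M s r) (nxt_ne s r))

theorem comp_unt (n : ℕ) {c0 c1} {μ} (h : Comp (IM M n) c0 μ c1) :
    (c0.2.1 : Fin 5 × M.Q).1 ≠ 0 →
    Comp M (c0.1, (c0.2.1 : Fin 5 × M.Q).2, c0.2.2) (μ.map (unt M))
      (c1.1, (c1.2.1 : Fin 5 × M.Q).2, c1.2.2) ∧
    μ = tagL M (c0.2.1 : Fin 5 × M.Q).1 (μ.map (unt M)) ∧
    (c1.2.1 : Fin 5 × M.Q).1 = endP M (c0.2.1 : Fin 5 × M.Q).1 (μ.map (unt M)) := by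
  induction h with
  | nil c => intro _; exact ⟨Comp.nil _, rfl, rfl⟩
  | cons r hr α v μ c h ih =>
    intro hs
    simp only at hs
    rcases hr with hr | ⟨⟨s, r0⟩, ⟨hs0, hr0⟩, rfl⟩
    · exfalso
      rcases hr with hr | hr
      · rw [hr] at hs; exact hs rfl
      · rw [Set.mem_singleton_iff] at hr
        rw [hr] at hs; exact hs rfl
    · obtain ⟨h1, h2, h3⟩ := ih (nxt_ne s r0)
      refine ⟨Comp.cons (M := M) r0 hr0 α v _ _ h1, ?_, h3⟩
      have : tagL M s ((tag M s r0 :: μ).map (unt M)) = tag M s r0 ::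
          tagL M (nxt M s r0) (μ.map (unt M)) := rfl
      exact (congrArg (fun x => tag M s r0 :: x) h2).trans this.symm

theorem comp_idle (n : ℕ) {c1} (k : ℕ) : ∀ (w : List A) (μ : List (Rule (Fin 5 × M.Q) A M.G)),
    1 ≤ k → k ≤ μ.length →
    Comp (IM M n) ([M.Z0], (0, M.q0), w) μ c1 →
    (∃ r : Rule (Fin 5 × M.Q) A M.G, μ[k - 1]? = some r ∧ r.p = (1, M.q0)) →
    (∀ t < k - 1, ∀ r : Rule (Fin 5 × M.Q) A M.G, μ[t]? = some r → r.p ≠ (1, M.q0)) →
    Comp (IM M n) ([M.Z0], (1, M.q0), w) (μ.drop k) c1 := by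
  induction k with
  | zero => intro w μ hk; omega
  | succ k ih =>
    intro w μ _ hlen hc h1 h2
    rcases comp_inv hc with ⟨hμ, _⟩ | ⟨r, μ', β, u, hr, hμ, e1, e2, e3, h4⟩
    · have h0 : μ.length = 0 := by rw [hμ]; rfl
      omega
    · subst hμ
      have hrr : r = dd M ∨ r = dt M := by
        rcases hr with hr | ⟨⟨s, r0⟩, ⟨hs0, hr0⟩, rfl⟩
        · exact hr
        · exfalso
          exact hs0 (congrArg Prod.fst e2).symm
      rcases hrr with hrr | hrr
      · subst hrr
        rcases Nat.eq_zero_or_pos k with hk | hk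
        · exfalso
          subst hk
          obtain ⟨r1, g1, g2⟩ := h1
          have g1' : some (dd M) = some r1 := g1
          rw [← Option.some.inj g1'] at g2
          exact absurd (show (0 : Fin 5) = 1 from congrArg Prod.fst g2) (by decide)
        · have e4 : ([] : List M.G) = β := (List.cons.inj e1).2
          have e5 : w = u := e3
          subst e4 e5
          have h5 := ih w μ' hk (Nat.le_of_succ_le_succ hlen) h4 (by
            obtain ⟨r1, g1, g2⟩ := h1
            refine ⟨r1, ?_, g2⟩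
            rw [← g1]
            obtain ⟨k', rfl⟩ : ∃ k', k = k' + 1 := ⟨k - 1, by omega⟩
            rfl) (by
            intro t ht r hr
            exact h2 (t + 1) (by omega) r hr)
          exact h5
      · subst hrr
        rcases Nat.eq_zero_or_pos k with hk | hk
        · subst hk
          have e4 : ([] : List M.G) = β := (List.cons.inj e1).2
          have e5 : w = u := e3
          subst e4 e5
          exact h4
        · exfalso
          exact h2 0 (by omega) (dt M) rfl rfl

theorem comp_dd (n : ℕ) (w : List A) (k : ℕ) :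
    Comp (IM M n) ([M.Z0], (0, M.q0), w) (List.replicate k (dd M)) ([M.Z0], (0, M.q0), w) := by
  induction k with
  | zero => exact Comp.nil _
  | succ k ih => exact Comp.cons (M := IM M n) (dd M) (Or.inl (Or.inl rfl)) [] w _ _ ih

theorem incl_one (n : ℕ) (w : List A) (h : Accepts M n w) : Accepts (IM M n) (n + 1) w := by
  obtain ⟨μ, f, k, hf, hc, hk, hlen, ⟨rt, ht1, ht2⟩, ht3, hR⟩ := h
  have hkl : k ≤ μ.length := by rw [hlen]; exact Nat.le_mul_of_pos_left _ (by omega)
  have htake : μ.take k = μ.take (k - 1) ++ [rt] := by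
    obtain ⟨k', rfl⟩ : ∃ k', k = k' + 1 := ⟨k - 1, by omega⟩
    rw [Nat.add_sub_cancel] at ht1 ⊢
    rw [List.take_add_one, ht1]
    rfl
  have hend3 : endP M 1 (μ.take k) = 3 := by
    rw [htake]
    refine endP_turn _ ?_ _ ht2
    intro r hr
    obtain ⟨t, ht, hrt⟩ := List.getElem_of_mem hr
    rw [List.length_take] at ht
    rw [List.getElem_take] at hrt
    exact ht3 t (by omega) r (by rw [← hrt]; exact List.getElem?_eq_getElem _)
  have hcomp : Comp (IM M n) ([M.Z0], (0, M.q0), w)
      (List.replicate (k - 1) (dd M) ++ (dt M :: tagL M 1 μ)) ([], (endP M 1 μ, f), []) := by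
    refine (comp_dd n w (k - 1)).append ?_
    exact Comp.cons (M := IM M n) (dt M) (Or.inl (Or.inr rfl)) [] w _ _
      (comp_tag n hc 1 (by decide))
  have hget : ∀ t, (List.replicate (k - 1) (dd M) ++ (dt M :: tagL M 1 μ))[t + k]? =
      (μ[t]?).map (tag M (endP M 1 (μ.take t))) := by
    intro t
    rw [List.getElem?_append_right (by simp; omega), List.length_replicate,
      show t + k - (k - 1) = t + 1 by omega, List.getElem?_cons_succ, tagL_get]
  have hlen' : (List.replicate (k - 1) (dd M) ++ (dt M :: tagL M 1 μ)).length =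
      (n + 1 + 1) * k := by
    simp only [List.length_append, List.length_replicate, List.length_cons, tagL_length, hlen]
    have : (n + 1 + 1) * k = (n + 1) * k + k := Nat.succ_mul _ _
    omega
  refine ⟨List.replicate (k - 1) (dd M) ++ (dt M :: tagL M 1 μ), (endP M 1 μ, f), k, ⟨hf, ?_⟩,
    hcomp, hk, hlen', ⟨dt M, ?_, rfl⟩, ?_, ?_⟩
  · by_cases hn : n = 0
    · rw [if_pos hn]
      have : μ.take k = μ := by
        apply List.take_of_length_le
        rw [hlen, hn]; omega
      rw [this] at hend3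
      exact hend3
    · rw [if_neg hn]
      have h1 : μ = μ.take k ++ μ.drop k := (List.take_append_drop _ _).symm
      have h2 : μ.drop k ≠ [] := by
        intro h
        have h3 := congrArg List.length h
        rw [List.length_drop, hlen] at h3
        have h4 : 2 * k ≤ (n + 1) * k := Nat.mul_le_mul_right _ (by omega)
        simp only [List.length_nil] at h3
        omega
      obtain ⟨r, ν, hν⟩ := List.exists_cons_of_ne_nil h2
      show endP M 1 μ = 4
      rw [h1, endP_append, hend3, hν, endP_three]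
  · show (List.replicate (k - 1) (dd M) ++ (dt M :: tagL M 1 μ))[k - 1]? = some (dt M)
    rw [List.getElem?_append_right (by simp), List.length_replicate, Nat.sub_self]
    rfl
  · intro t ht r hr
    have hr' : (List.replicate (k - 1) (dd M) ++ (dt M :: tagL M 1 μ))[t]? = some r := hr
    rw [List.getElem?_append_left (by simpa using ht)] at hr'
    have := List.eq_of_mem_replicate (List.mem_of_getElem? hr')
    subst this
    intro h
    exact absurd (show (0 : Fin 5) = 1 from congrArg Prod.fst h) (by decide)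
  · intro j hj
    rcases j with _ | j
    · have h0 := hget 0
      rw [Nat.zero_add] at h0
      obtain ⟨r0, hr0⟩ : ∃ r0, (List.replicate (k - 1) (dd M) ++ (dt M :: tagL M 1 μ))[0]? =
          some r0 ∧ r0.q.1 = 0 := by
        rcases Nat.eq_zero_or_pos (k - 1) with h | h
        · rw [h]; exact ⟨dt M, rfl, rfl⟩
        · obtain ⟨k', hk'⟩ : ∃ k', k - 1 = k' + 1 := ⟨k - 1 - 1, by omega⟩
          rw [hk']; exact ⟨dd M, rfl, rfl⟩
      have hμ0 : ∃ r1, μ[0]? = some r1 := ⟨μ[0], List.getElem?_eq_getElem (by omega)⟩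
      obtain ⟨r1, hr1⟩ := hμ0
      rw [hr1] at h0
      refine ⟨r0, _, by rw [Nat.zero_mul]; exact hr0.1, by rw [Nat.zero_add, Nat.one_mul]; exact h0,
        Or.inl hr0.2⟩
    · obtain ⟨r, s, g1, g2, g3⟩ := hR j (by omega)
      have h1 := hget (j * k)
      have h2 := hget ((j + 1) * k)
      rw [g1, show j * k + k = (j + 1) * k by ring] at h1
      rw [g2, show (j + 1) * k + k = (j + 1 + 1) * k by ring] at h2
      refine ⟨_, _, h1, h2, Or.inr ⟨g3, ?_⟩⟩
      intro hq
      have hq' : endP M 1 (μ.take (j * k)) = 1 := hq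
      show endP M 1 (μ.take ((j + 1) * k)) = 3
      rcases j with _ | j
      · rw [Nat.zero_add, Nat.one_mul]; exact hend3
      · exfalso
        have h3 : k ≤ (j + 1) * k := Nat.le_mul_of_pos_left _ (by omega)
        have h4 : μ.take ((j + 1) * k) = μ.take k ++ (μ.drop k).take ((j + 1) * k - k) := by
          rw [← List.take_add]; congr 1; omega
        rw [h4, endP_append, hend3] at hq'
        generalize (μ.drop k).take ((j + 1) * k - k) = ν at hq'
        rcases ν with _ | ⟨r', ν⟩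
        · exact absurd (show (3 : Fin 5) = 1 from hq') (by decide)
        · rw [endP_three] at hq'
          exact absurd hq' (by decide)

theorem incl_two' (n : ℕ) (w : List A) (μ' : List (Rule (Fin 5 × M.Q) A M.G))
    (f' : Fin 5 × M.Q) (k : ℕ) (hf1 : f'.2 ∈ M.F) (hf2 : f'.1 = if n = 0 then 3 else 4)
    (hc : Comp (IM M n) ([M.Z0], (0, M.q0), w) μ' ([], f', [])) (hk : 1 ≤ k)
    (hlen : μ'.length = (n + 1 + 1) * k)
    (ht1 : ∃ r : Rule (Fin 5 × M.Q) A M.G, μ'[k - 1]? = some r ∧ r.p = (1, M.q0))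
    (ht2 : ∀ t < k - 1, ∀ r : Rule (Fin 5 × M.Q) A M.G, μ'[t]? = some r → r.p ≠ (1, M.q0))
    (hR : ∀ j < n + 1, ∃ r s : Rule (Fin 5 × M.Q) A M.G, μ'[j * k]? = some r ∧
      μ'[(j + 1) * k]? = some s ∧
      (r.q.1 = 0 ∨ (M.R (unt M r) (unt M s) ∧ (r.q.1 = 1 → s.q.1 = 3)))) : Accepts M n w := by
  have hml : (n + 1 + 1) * k = (n + 1) * k + k := Nat.succ_mul _ _
  have hc2 := comp_idle n k w μ' hk (by omega) hc ht1 ht2
  obtain ⟨g1, g2, g3⟩ := comp_unt n hc2 (show (1 : Fin 5) ≠ 0 by decide)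
  simp only at g1 g2 g3
  set μ : List (Rule M.Q A M.G) := (μ'.drop k).map (unt M) with hμ
  have hlen2 : μ.length = (n + 1) * k := by
    rw [hμ, List.length_map, List.length_drop, hlen]; omega
  have hget : ∀ t, μ'[t + k]? = (μ[t]?).map (tag M (endP M 1 (μ.take t))) := by
    intro t
    have h1 : (μ'.drop k)[t]? = (tagL M 1 μ)[t]? := congrArg (fun x => x[t]?) g2
    rw [tagL_get, List.getElem?_drop, Nat.add_comm] at h1
    exact h1
  have hend3 : endP M 1 (μ.take k) = 3 := by
    by_cases hn : n = 0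
    · have h1 : μ.take k = μ := by
        apply List.take_of_length_le
        rw [hlen2, hn]; omega
      rw [if_pos hn] at hf2
      rw [h1, ← hf2]
      exact g3.symm
    · obtain ⟨r, s, e1, e2, e3⟩ := hR 1 (by omega)
      have h1 := hget 0
      have h2 := hget k
      rw [Nat.zero_add] at h1
      rw [Nat.one_mul] at e1
      rw [show (1 + 1) * k = k + k by ring] at e2
      have h1' : some r = (μ[0]?).map (tag M (endP M 1 (μ.take 0))) := e1.symm.trans h1
      have h2' : some s = (μ[k]?).map (tag M (endP M 1 (μ.take k))) := e2.symm.trans h2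
      obtain ⟨r1, _, hr1⟩ := Option.map_eq_some_iff.1 h1'.symm
      obtain ⟨s1, _, hs1⟩ := Option.map_eq_some_iff.1 h2'.symm
      rcases e3 with h3 | ⟨_, h3⟩
      · exfalso
        rw [← hr1] at h3
        exact absurd h3 (by simp [tag, endP])
      · have h4 := h3 (by rw [← hr1]; simp [tag, endP])
        rw [← hs1] at h4
        exact h4
  obtain ⟨μ0, rt, e1, e2, e3⟩ := endP_inv _ 1 (Or.inl rfl) hend3
  have hkl : k ≤ μ.length := by rw [hlen2]; exact Nat.le_mul_of_pos_left _ (by omega)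
  have hμ0 : μ0.length = k - 1 := by
    have := congrArg List.length e1
    rw [List.length_take, List.length_append] at this
    simp only [List.length_cons, List.length_nil] at this
    omega
  have htg : ∀ t < k, μ[t]? = (μ0 ++ [rt])[t]? := by
    intro t ht
    rw [← e1, List.getElem?_take_of_lt ht]
  refine ⟨μ, f'.2, k, hf1, g1, hk, hlen2, ⟨rt, ?_, e2⟩, ?_, ?_⟩
  · rw [htg _ (by omega), List.getElem?_append_right (by omega), hμ0, Nat.sub_self]; rfl
  · intro t ht r hr
    rw [htg t (by omega), List.getElem?_append_left (by omega)] at hr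
    exact e3 r (List.mem_of_getElem? hr)
  · intro j hj
    obtain ⟨r, s, h1, h2, h3⟩ := hR (j + 1) (by omega)
    rw [Nat.succ_mul] at h1
    rw [Nat.succ_mul] at h2
    have h1' := h1.symm.trans (hget (j * k))
    have h2' := h2.symm.trans (hget ((j + 1) * k))
    obtain ⟨r1, hr0, hr1⟩ := Option.map_eq_some_iff.1 h1'.symm
    obtain ⟨s1, hs0, hs1⟩ := Option.map_eq_some_iff.1 h2'.symm
    refine ⟨r1, s1, hr0, hs0, ?_⟩
    rcases h3 with h3 | ⟨h3, _⟩
    · exfalso
      have h4 : r.q.1 = endP M 1 (μ.take (j * k)) := by rw [← hr1]; rfl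
      have h5 : ∀ (ν : List (Rule M.Q A M.G)) (s : Fin 5), s ≠ 0 → endP M s ν ≠ 0 := by
        intro ν
        induction ν with
        | nil => intro s hs; exact hs
        | cons r ν ih => intro s _; exact ih _ (nxt_ne s r)
      rw [h3] at h4
      exact h5 _ 1 (by decide) h4.symm
    · rw [← hr1, ← hs1] at h3
      exact h3

theorem incl_two (n : ℕ) (w : List A) (h : Accepts (IM M n) (n + 1) w) : Accepts M n w := by
  obtain ⟨μ', f', k, ⟨hf1, hf2⟩, hc, hk, hlen, ht1, ht2, hR⟩ := h
  exact incl_two' n w μ' f' k hf1 hf2 hc hk hlen ht1 ht2 hR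

theorem incl (A : Type) (n : ℕ) : FSPDA A n ⊆ FSPDA A (n + 1) := by
  rintro L ⟨M, rfl⟩
  refine ⟨IM M n, ?_⟩
  ext w
  exact ⟨incl_one n w, incl_two n w⟩

end Pool.Agent.X247.SR
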