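import Pool.Agent.X247.SR.Gram

/-! Pushdown systems with a monotone phase, and their commutative grammars. -/

namespace Pool.Agent.X247.SR

/-- A pushdown system; `ph` is a phase that never decreases along a rule; rule `r` reads
`lt r w` letters `w`, all of them between the phases of its two states. -/
structure PDS (K Γ R : Type) where
  src : R → K
  pop : R → Γ
  psh : R → List Γ
  tgt : R → K
  ph : K → ℕ
  lt : R → ℕ → ℕ
  mono : ∀ r, ph (src r) ≤ ph (tgt r)
  lt_mem : ∀ r w, lt r w ≠ 0 → ph (src r) ≤ w ∧ w ≤ ph (tgt r)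

variable {K Γ R : Type} (S : PDS K Γ R)

/-- Runs (the pushdown is written top first). -/
inductive Run : K → List Γ → List R → K → List Γ → Prop
  | nil (k : K) (α : List Γ) : Run k α [] k α
  | cons (r : R) (α : List Γ) (μ : List R) (k' : K) (β : List Γ)
      (h : Run (S.tgt r) (S.psh r ++ α) μ k' β) : Run (S.src r) (S.pop r :: α) (r :: μ) k' β

def chain : K → List Γ → List K → List (K × Γ × K)
  | k, Z :: α, s :: ss => (k, Z, s) :: chain s α ss
  | _, _, _ => []

def endS : K → List K → K
  | k, [] => k
  | _, s :: ss => endS s ss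

def Mono (ph : K → ℕ) : K → List K → Prop
  | _, [] => True
  | k, s :: ss => ph k ≤ ph s ∧ Mono ph s ss

theorem endS_append (k : K) (ss ts : List K) : endS k (ss ++ ts) = endS (endS k ss) ts := by
  induction ss generalizing k with
  | nil => rfl
  | cons s ss ih => exact ih s

theorem chain_append (k : K) (α β : List Γ) (ss ts : List K) (h : ss.length = α.length) :
    chain k (α ++ β) (ss ++ ts) = chain k α ss ++ chain (endS k ss) β ts := by
  induction α generalizing k ss with
  | nil =>
    have : ss = [] := List.length_eq_zero_iff.1 (by simpa using h)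
    subst this; rfl
  | cons Z α ih =>
    cases ss with
    | nil => simp at h
    | cons s ss =>
      simp only [List.cons_append, chain, endS, List.cons.injEq, true_and]
      exact ih s ss (by simpa using h)

theorem mono_append (ph : K → ℕ) (k : K) (ss ts : List K) :
    Mono ph k (ss ++ ts) ↔ Mono ph k ss ∧ Mono ph (endS k ss) ts := by
  induction ss generalizing k with
  | nil => simp [Mono, endS]
  | cons s ss ih => simp only [List.cons_append, Mono, endS, ih, and_assoc]

theorem mono_le (ph : K → ℕ) (k : K) (ss : List K) (h : Mono ph k ss) :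
    ph k ≤ ph (endS k ss) := by
  induction ss generalizing k with
  | nil => exact le_rfl
  | cons s ss ih => exact h.1.trans (ih s h.2)

/-- Productions: a rule together with the intermediate states. -/
def Pr : Type := {x : Σ r : R, List.Vector K (S.psh r).length // Mono S.ph (S.tgt x.1) x.2.toList}

instance [Finite K] [Finite R] : Finite (Pr S) := by
  have := Fintype.ofFinite K
  have := Fintype.ofFinite R
  unfold Pr
  infer_instance

def Pr.rule (p : Pr S) : R := p.1.1
def Pr.sts (p : Pr S) : List K := p.1.2.toList

theorem Pr.len (p : Pr S) : (p.sts).length = (S.psh p.rule).length := by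
  unfold Pr.sts Pr.rule
  simp

theorem Pr.mono (p : Pr S) : Mono S.ph (S.tgt p.rule) p.sts := p.2

def Pr.mk' (r : R) (ss : List K) (h : ss.length = (S.psh r).length)
    (hm : Mono S.ph (S.tgt r) ss) : Pr S := ⟨⟨r, ⟨ss, h⟩⟩, hm⟩

/-- The commutative grammar of a pushdown system. -/
def gram : CG (K × Γ × K) (Pr S) where
  lhs p := (S.src p.rule, S.pop p.rule, endS (S.tgt p.rule) p.sts)
  rhs p := ↑(chain (S.tgt p.rule) (S.psh p.rule) p.sts)

variable {S}

theorem run_to_der {k : K} {α : List Γ} {μ : List R} {k' : K} {β : List Γ}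
    (h : Run S k α μ k' β) (hβ : β = []) :
    ∃ ss : List K, ss.length = α.length ∧ endS k ss = k' ∧ Mono S.ph k ss ∧
      ∃ V : Multiset (Pr S), Der (gram S) ↑(chain k α ss) 0 V ∧ V.map (fun p => p.rule) = ↑μ := by
  induction h with
  | nil k α =>
    subst hβ
    exact ⟨[], rfl, rfl, trivial, 0, Der.refl _, rfl⟩
  | cons r α μ k' β h ih =>
    obtain ⟨ss, hlen, hend, hmono, V, hV, hμ⟩ := ih hβ
    -- split the states
    have h1 : ss = ss.take (S.psh r).length ++ ss.drop (S.psh r).length :=
      (List.take_append_drop _ _).symm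
    set s1 := ss.take (S.psh r).length with hs1
    set s2 := ss.drop (S.psh r).length with hs2
    have hl1 : s1.length = (S.psh r).length := by
      rw [hs1, List.length_take, hlen, List.length_append]; omega
    have hl2 : s2.length = α.length := by
      rw [hs2, List.length_drop, hlen, List.length_append]; omega
    rw [h1, mono_append] at hmono
    rw [h1, endS_append] at hend
    rw [h1, chain_append _ _ _ _ _ hl1] at hV
    refine ⟨endS (S.tgt r) s1 :: s2, by simp [hl2], hend,
      ⟨(S.mono r).trans (mono_le _ _ _ hmono.1), hmono.2⟩,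
      Pr.mk' S r s1 hl1 hmono.1 ::ₘ V, ?_, ?_⟩
    · have := Der.step (𝒢 := gram S) (Pr.mk' S r s1 hl1 hmono.1)
        ↑(chain (endS (S.tgt r) s1) α s2) 0 V (by
          simpa [gram, Pr.mk', Pr.rule, Pr.sts] using hV)
      simpa [gram, Pr.mk', Pr.rule, Pr.sts, chain] using this
    · simp only [Multiset.map_cons, hμ]
      rfl

theorem der_to_run (n : ℕ) : ∀ (V : Multiset (Pr S)), Multiset.card V = n →
    ∀ (k : K) (α : List Γ) (ss : List K), ss.length = α.length →
      Der (gram S) ↑(chain k α ss) 0 V →
      ∃ μ, Run S k α μ (endS k ss) [] ∧ V.map (fun p => p.rule) = ↑μ := by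
  induction n with
  | zero =>
    intro V hV k α ss hlen hD
    rw [Multiset.card_eq_zero] at hV
    subst hV
    cases α with
    | nil =>
      have : ss = [] := List.length_eq_zero_iff.1 (by simpa using hlen)
      subst this
      exact ⟨[], Run.nil _ _, rfl⟩
    | cons Z α =>
      cases ss with
      | nil => simp at hlen
      | cons s ss =>
        exfalso
        obtain ⟨p, W, _, hW, _⟩ := hD.exchange (k, Z, s) ↑(chain s α ss) rfl
        exact absurd hW.symm (Multiset.cons_ne_zero)
  | succ n ih =>
    intro V hV k α ss hlen hD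
    cases α with
    | nil =>
      have : ss = [] := List.length_eq_zero_iff.1 (by simpa using hlen)
      subst this
      exfalso
      have hb := hD.balance
      simp only [chain, Multiset.coe_nil, zero_add, add_zero] at hb
      generalize hA : (↑(chain k ([] : List Γ) []) : Multiset (K × Γ × K)) = A at hD
      cases hD with
      | refl => simp at hV
      | step p O _ W h => simp [chain] at hA
    | cons Z α =>
      cases ss with
      | nil => simp at hlen
      | cons s ss =>
        obtain ⟨p, W, hp, hW, hD'⟩ := hD.exchange (k, Z, s) ↑(chain s α ss) rfl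
        subst hW
        have hlhs : S.src p.rule = k ∧ S.pop p.rule = Z ∧ endS (S.tgt p.rule) p.sts = s := by
          simpa [gram] using hp
        obtain ⟨hk, hZ, hs⟩ := hlhs
        have hD2 : Der (gram S) ↑(chain (S.tgt p.rule) (S.psh p.rule ++ α) (p.sts ++ ss)) 0 W := by
          rw [chain_append _ _ _ _ _ (p.len), hs]
          simpa [gram] using hD'
        obtain ⟨μ, hμ, hWμ⟩ := ih W (by simpa using hV) _ _ _
          (by rw [List.length_append, List.length_append, p.len]; simpa using hlen) hD2
        refine ⟨p.rule :: μ, ?_, ?_⟩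
        · have := Run.cons (S := S) p.rule α μ _ _ hμ
          rw [hk, hZ, endS_append, hs] at this
          exact this
        · simp only [Multiset.map_cons, hWμ]
          rfl

/-! ### phases -/

/-- `w` is strictly inside the interval of the nonterminal. -/
def ins (S : PDS K Γ R) (w : ℕ) (Y : K × Γ × K) : ℕ :=
  if S.ph Y.1 < w ∧ w < S.ph Y.2.2 then 1 else 0

def gi (w a b : ℕ) : ℕ := if a < w ∧ w < b then 1 else 0

def Untouched (S : PDS K Γ R) (w : ℕ) (Y : K × Γ × K) : Prop := S.ph Y.1 ≠ w ∧ S.ph Y.2.2 ≠ w

theorem chain_ins (w : ℕ) (α : List Γ) : ∀ (k : K) (ss : List K), Mono S.ph k ss →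
    ((chain k α ss).map (ins S w)).sum ≤ gi w (S.ph k) (S.ph (endS k ss)) := by
  induction α with
  | nil => intro k ss _; simp [chain]
  | cons Z α ih =>
    intro k ss h
    cases ss with
    | nil => simp [chain]
    | cons s ss =>
      have h1 := ih s ss h.2
      have h2 := mono_le _ _ _ h.2
      have h3 := h.1
      simp only [chain, List.map_cons, List.sum_cons, endS]
      refine le_trans (Nat.add_le_add_left h1 _) ?_
      simp only [ins, gi]
      split_ifs <;> omega

theorem chain_unt (w : ℕ) (α : List Γ) : ∀ (k : K) (ss : List K), Mono S.ph k ss →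
    ss.length = α.length →
    ((chain k α ss).map (ins S w)).sum = gi w (S.ph k) (S.ph (endS k ss)) →
    S.ph k ≠ w → S.ph (endS k ss) ≠ w → ∀ Y ∈ chain k α ss, Untouched S w Y := by
  induction α with
  | nil => intro k ss _ _ _ _ _ Y hY; simp [chain] at hY
  | cons Z α ih =>
    intro k ss h hlen heq hk he
    cases ss with
    | nil => simp at hlen
    | cons s ss =>
      have h1 := chain_ins (S := S) w α s ss h.2
      have h2 := mono_le _ _ _ h.2
      have h3 := h.1
      simp only [chain, List.map_cons, List.sum_cons, endS] at heq he ⊢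
      have hs : S.ph s ≠ w := by
        intro hs
        simp only [ins, gi] at heq h1
        split_ifs at heq h1 <;> omega
      have heq' : ((chain s α ss).map (ins S w)).sum = gi w (S.ph s) (S.ph (endS s ss)) := by
        simp only [ins, gi] at heq h1 ⊢
        split_ifs at heq h1 ⊢ <;> omega
      intro Y hY
      rcases List.mem_cons.1 hY with h7 | h7
      · subst h7; exact ⟨hk, hs⟩
      · exact ih s ss h.2 (by simpa using hlen) heq' hs he Y h7

theorem pr_ins (w : ℕ) (p : Pr S) :
    (((gram S).rhs p).map (ins S w)).sum ≤ ins S w ((gram S).lhs p) := by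
  have h1 := chain_ins (S := S) w (S.psh p.rule) (S.tgt p.rule) p.sts p.mono
  have h2 := mono_le _ _ _ p.mono
  have h3 := S.mono p.rule
  have : (((gram S).rhs p).map (ins S w)).sum =
      ((chain (S.tgt p.rule) (S.psh p.rule) p.sts).map (ins S w)).sum := by
    simp [gram]
  rw [this]
  refine h1.trans ?_
  simp only [gi, ins, gram]
  split_ifs <;> omega

theorem pr_tight (w : ℕ) (p : Pr S)
    (heq : (((gram S).rhs p).map (ins S w)).sum = ins S w ((gram S).lhs p))
    (hu : Untouched S w ((gram S).lhs p)) :
    (∀ Y ∈ (gram S).rhs p, Untouched S w Y) ∧ S.lt p.rule w = 0 := by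
  have h1 := chain_ins (S := S) w (S.psh p.rule) (S.tgt p.rule) p.sts p.mono
  have h2 := mono_le _ _ _ p.mono
  have h3 := S.mono p.rule
  have h4 : (((gram S).rhs p).map (ins S w)).sum =
      ((chain (S.tgt p.rule) (S.psh p.rule) p.sts).map (ins S w)).sum := by
    simp [gram]
  rw [h4] at heq
  obtain ⟨hu1, hu2⟩ := hu
  simp only [gram] at hu1 hu2
  have hi : ins S w ((gram S).lhs p) =
      gi w (S.ph (S.src p.rule)) (S.ph (endS (S.tgt p.rule) p.sts)) := rfl
  rw [hi] at heq
  have ht : S.ph (S.tgt p.rule) ≠ w := by
    intro ht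
    simp only [gi] at heq h1
    split_ifs at heq h1 <;> omega
  have heq' : ((chain (S.tgt p.rule) (S.psh p.rule) p.sts).map (ins S w)).sum =
      gi w (S.ph (S.tgt p.rule)) (S.ph (endS (S.tgt p.rule) p.sts)) := by
    simp only [gi] at heq h1 ⊢
    split_ifs at heq h1 ⊢ <;> omega
  refine ⟨?_, ?_⟩
  · intro Y hY
    have hY' : Y ∈ chain (S.tgt p.rule) (S.psh p.rule) p.sts := by simpa [gram] using hY
    exact chain_unt (S := S) w _ _ _ p.mono p.len heq' ht hu2 Y hY'
  · by_contra hne
    obtain ⟨h5, h6⟩ := S.lt_mem _ _ hne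
    simp only [gi] at heq h1
    split_ifs at heq h1 <;> omega

theorem der_ins {A B : Multiset (K × Γ × K)} {V : Multiset (Pr S)} (h : Der (gram S) A B V)
    (w : ℕ) : (B.map (ins S w)).sum ≤ (A.map (ins S w)).sum := by
  induction h with
  | refl O => exact le_rfl
  | step p O O' V h ih =>
    refine ih.trans ?_
    rw [Multiset.map_add, Multiset.sum_add, Multiset.map_cons, Multiset.sum_cons]
    exact Nat.add_le_add_right (pr_ins w p) _

theorem der_letters {A B : Multiset (K × Γ × K)} {V : Multiset (Pr S)} (h : Der (gram S) A B V)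
    (w : ℕ) (heq : (A.map (ins S w)).sum = (B.map (ins S w)).sum)
    (hA : ∀ Y ∈ A, Untouched S w Y) : ∀ p ∈ V, S.lt p.rule w = 0 := by
  induction h with
  | refl O => intro p hp; simp at hp
  | step p O O' V h ih =>
    have h1 := der_ins h w
    have h2 := pr_ins w p
    rw [Multiset.map_cons, Multiset.sum_cons] at heq
    rw [Multiset.map_add, Multiset.sum_add] at h1
    have h3 : (((gram S).rhs p).map (ins S w)).sum = ins S w ((gram S).lhs p) := by omega
    obtain ⟨h4, h5⟩ := pr_tight w p h3 (hA _ (by simp))
    intro p' hp'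
    rcases Multiset.mem_cons.1 hp' with h6 | h6
    · rw [h6]; exact h5
    · refine ih ?_ ?_ p' h6
      · rw [Multiset.map_add, Multiset.sum_add]; omega
      · intro Y hY
        rcases Multiset.mem_add.1 hY with h7 | h7
        · exact h4 Y h7
        · exact hA Y (by simp [h7])

/-- A pump reads at most two letters. -/
theorem pump_letters {X : K × Γ × K} {c : Multiset (Pr S)} (h : Der (gram S) {X} {X} c) (w : ℕ)
    (h1 : S.ph X.1 ≠ w) (h2 : S.ph X.2.2 ≠ w) :
    (c.map (fun p => S.lt p.rule w)).sum = 0 := by
  have := der_letters h w rfl (by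
    intro Y hY
    rw [Multiset.mem_singleton] at hY
    subst hY
    exact ⟨h1, h2⟩)
  rw [Multiset.sum_eq_zero_iff]
  intro x hx
  obtain ⟨p, hp, rfl⟩ := Multiset.mem_map.1 hx
  exact this p hp

end Pool.Agent.X247.SR
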