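import Pool.Agent.X247.SR.Annot

/-! The languages `{a₀ⁱ ⋯ a_{2N+1}ⁱ}` with `N` turns. -/

namespace Pool.Agent.X247.SR

theorem Comp.append {A : Type} {M : SRPDA A} {c0 c1 c2} {μ μ'} (h : Comp M c0 μ c1)
    (h' : Comp M c1 μ' c2) : Comp M c0 (μ ++ μ') c2 := by
  induction h with
  | nil c => exact h'
  | cons r hr α v μ c h ih => exact Comp.cons r hr α v _ _ (ih h')

theorem comp_inv {A : Type} {M : SRPDA A} {c0 c1} {μ} (h : Comp M c0 μ c1) :
    (μ = [] ∧ c0 = c1) ∨ ∃ r μ' α v, r ∈ M.rules ∧ μ = r :: μ' ∧ c0.1 = r.Z :: α ∧ c0.2.1 = r.q ∧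
      c0.2.2 = r.x ++ v ∧ Comp M (r.γ ++ α, r.p, v) μ' c1 := by
  cases h with
  | nil => exact Or.inl ⟨rfl, rfl⟩
  | cons r hr α v μ' _ h => exact Or.inr ⟨r, μ', α, v, hr, rfl, rfl, rfl, rfl, h⟩

variable (N : ℕ)

def qs (x : ℕ) : Fin (3 * N + 4) := Fin.ofNat _ x
def lt' (x : ℕ) : Fin (2 * N + 2) := Fin.ofNat _ x

theorem qs_val {x : ℕ} (h : x < 3 * N + 4) : (qs N x).val = x := Nat.mod_eq_of_lt h

abbrev RR := Rule (Fin (3 * N + 4)) (Fin (2 * N + 2)) Bool

def rF (j : ℕ) : RR N := ⟨false, qs N (3 * j), [], [false], qs N (3 * j + 1)⟩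
def rA (j : ℕ) (b : Bool) : RR N := ⟨b, qs N (3 * j + 1), [lt' N (2 * j)], [true, b], qs N (3 * j + 1)⟩
def rB0 (j : ℕ) : RR N := ⟨true, qs N (3 * j + 1), [lt' N (2 * j + 1)], [], qs N (3 * j + 2)⟩
def rB1 (j : ℕ) : RR N := ⟨true, qs N (3 * j + 2), [lt' N (2 * j + 1)], [], qs N (3 * j + 2)⟩
def bot (j : ℕ) : List Bool := if j ≤ N then [false] else []
def rE (j : ℕ) : RR N := ⟨false, qs N (3 * j + 2), [], bot N (j + 1), qs N (3 * j + 3)⟩

def rl (x : Fin (N + 1) × Fin 6) : RR N :=
  match x.2 with
  | 0 => rF N x.1.val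
  | 1 => rA N x.1.val false
  | 2 => rA N x.1.val true
  | 3 => rB0 N x.1.val
  | 4 => rB1 N x.1.val
  | 5 => rE N x.1.val

/-- The automaton. -/
def UM : SRPDA (Fin (2 * N + 2)) where
  Q := Fin (3 * N + 4)
  G := Bool
  finQ := inferInstance
  finG := inferInstance
  rules := Set.range (rl N)
  finR := Set.finite_range _
  q0 := qs N 0
  qt := qs N 3
  Z0 := false
  F := {qs N (3 * N + 3)}
  R r s := ∃ j < N, r = rF N j ∧ s = rF N (j + 1)

variable {N}

theorem rules_cases {r : RR N} (h : r ∈ (UM N).rules) :
    ∃ j ≤ N, r = rF N j ∨ r = rA N j false ∨ r = rA N j true ∨ r = rB0 N j ∨ r = rB1 N j ∨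
      r = rE N j := by
  obtain ⟨⟨j, c⟩, rfl⟩ := h
  refine ⟨j.val, by omega, ?_⟩
  fin_cases c <;> simp [rl]

theorem mem_rF {j : ℕ} (h : j ≤ N) : rF N j ∈ (UM N).rules := ⟨(⟨j, by omega⟩, 0), rfl⟩
theorem mem_rA {j : ℕ} (h : j ≤ N) (b : Bool) : rA N j b ∈ (UM N).rules := by
  cases b
  · exact ⟨(⟨j, by omega⟩, 1), rfl⟩
  · exact ⟨(⟨j, by omega⟩, 2), rfl⟩
theorem mem_rB0 {j : ℕ} (h : j ≤ N) : rB0 N j ∈ (UM N).rules := ⟨(⟨j, by omega⟩, 3), rfl⟩
theorem mem_rB1 {j : ℕ} (h : j ≤ N) : rB1 N j ∈ (UM N).rules := ⟨(⟨j, by omega⟩, 4), rfl⟩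
theorem mem_rE {j : ℕ} (h : j ≤ N) : rE N j ∈ (UM N).rules := ⟨(⟨j, by omega⟩, 5), rfl⟩

theorem inv_p {r : RR N} (h : r ∈ (UM N).rules) {j : ℕ} (hj : j ≤ N) (hq : r.q = qs N (3 * j)) :
    r = rF N j := by
  obtain ⟨j', hj', h⟩ := rules_cases h
  have hv := congrArg Fin.val hq
  rw [qs_val N (by omega)] at hv
  rcases h with h | h | h | h | h | h <;> subst h <;>
    simp only [rF, rA, rB0, rB1, rE] at hv <;> rw [qs_val N (by omega)] at hv
  · have : j' = j := by omega
    rw [this]
  all_goals omega

theorem inv_u {r : RR N} (h : r ∈ (UM N).rules) {j : ℕ} (hj : j ≤ N)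
    (hq : r.q = qs N (3 * j + 1)) : r = rA N j false ∨ r = rA N j true ∨ r = rB0 N j := by
  obtain ⟨j', hj', h⟩ := rules_cases h
  have hv := congrArg Fin.val hq
  rw [qs_val N (by omega)] at hv
  rcases h with h | h | h | h | h | h <;> subst h <;>
    simp only [rF, rA, rB0, rB1, rE] at hv <;> rw [qs_val N (by omega)] at hv
  · omega
  · have : j' = j := by omega
    rw [this]; exact Or.inl rfl
  · have : j' = j := by omega
    rw [this]; exact Or.inr (Or.inl rfl)
  · have : j' = j := by omega
    rw [this]; exact Or.inr (Or.inr rfl)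
  all_goals omega

theorem inv_v {r : RR N} (h : r ∈ (UM N).rules) {j : ℕ} (hj : j ≤ N)
    (hq : r.q = qs N (3 * j + 2)) : r = rB1 N j ∨ r = rE N j := by
  obtain ⟨j', hj', h⟩ := rules_cases h
  have hv := congrArg Fin.val hq
  rw [qs_val N (by omega)] at hv
  rcases h with h | h | h | h | h | h <;> subst h <;>
    simp only [rF, rA, rB0, rB1, rE] at hv <;> rw [qs_val N (by omega)] at hv
  · omega
  · omega
  · omega
  · omega
  · have : j' = j := by omega
    rw [this]; exact Or.inl rfl
  · have : j' = j := by omega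
    rw [this]; exact Or.inr rfl

theorem comp_mono {c0 c1} {μ} (h : Comp (UM N) c0 μ c1) :
    ∀ r ∈ μ, (c0.2.1 : Fin (3 * N + 4)).val ≤ (r.q : Fin (3 * N + 4)).val := by
  induction h with
  | nil c => intro r hr; simp at hr
  | cons r hr α v μ c h ih =>
    intro r' hr'
    rcases List.mem_cons.1 hr' with h' | h'
    · rw [h']
    · refine le_trans ?_ (ih r' h')
      obtain ⟨j, hj, h⟩ := rules_cases hr
      rcases h with h | h | h | h | h | h <;> subst h <;>
        simp only [rF, rA, rB0, rB1, rE] <;> (repeat rw [qs_val N (by omega)]) <;> omega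

/-- no label `rF` -/
def NoF (μ : List (RR N)) : Prop := ∀ r ∈ μ, ∀ j ≤ N, r ≠ rF N j

def fin' (N : ℕ) : List (UM N).G × (UM N).Q × List (Fin (2 * N + 2)) :=
  (([] : List Bool), qs N (3 * N + 3), [])

theorem noF_of {r : RR N} {j x : ℕ} (hj : j ≤ N) (hq : r.q = qs N x) (hx : x < 3 * N + 4)
    (h3 : x % 3 ≠ 0) : r ≠ rF N j := by
  intro h
  subst h
  have hv := congrArg Fin.val hq
  simp only [rF] at hv
  rw [qs_val N (by omega), qs_val N hx] at hv
  omega

theorem lem_v (j : ℕ) (hj : j ≤ N) (h : ℕ) : ∀ (α : List Bool) (v : List (Fin (2 * N + 2)))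
    (μ : List (RR N)),
    Comp (UM N) (List.replicate h true ++ false :: α, qs N (3 * j + 2), v) μ (fin' N) →
    ∃ μ1 μ2 v2, μ = μ1 ++ μ2 ∧ μ1.length = h + 1 ∧ NoF μ1 ∧
      v = List.replicate h (lt' N (2 * j + 1)) ++ v2 ∧
      Comp (UM N) (bot N (j + 1) ++ α, qs N (3 * j + 3), v2) μ2 (fin' N) := by
  induction h with
  | zero =>
    intro α v μ hc
    rcases comp_inv hc with ⟨_, he⟩ | ⟨r, μ', β, u, hr, hμ, e1, e2, e3, h4⟩
    · exfalso
      have := congrArg Prod.fst he
      simp [fin'] at this
    · subst hμ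
      rcases inv_v hr hj e2.symm with h' | h'
      · subst h'
        exfalso
        have := List.cons.inj (show false :: α = true :: β from e1)
        simp at this
      · subst h'
        have e4 : false = false ∧ α = β := List.cons.inj (show false :: α = false :: β from e1)
        refine ⟨[rE N j], μ', v, rfl, rfl, ?_, by simp, ?_⟩
        · intro r hr j' hj'
          rw [List.mem_singleton] at hr
          exact noF_of (x := 3 * j + 2) hj' (by rw [hr]; rfl) (by omega) (by omega)
        · have e5 : v = u := e3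
          rw [e5, e4.2]
          exact h4
  | succ h ih =>
    intro α v μ hc
    rcases comp_inv hc with ⟨_, he⟩ | ⟨r, μ', β, u, hr, hμ, e1, e2, e3, h4⟩
    · exfalso
      have this : List.replicate (h + 1) true ++ false :: α = ([] : List Bool) :=
        congrArg Prod.fst he
      exact absurd (congrArg List.length this) (by simp)
    · subst hμ
      rcases inv_v hr hj e2.symm with h' | h'
      · subst h'
        have e4 : true = true ∧ List.replicate h true ++ false :: α = β :=
          List.cons.inj (show true :: (List.replicate h true ++ false :: α) = true :: β from e1)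
        obtain ⟨μ1, μ2, v2, g1, g2, g3, g4, g5⟩ := ih α u μ' (by
          rw [e4.2]
          exact h4)
        refine ⟨rB1 N j :: μ1, μ2, v2, by rw [g1]; rfl, by simp [g2], ?_, ?_, g5⟩
        · intro r hr j' hj'
          rcases List.mem_cons.1 hr with h5 | h5
          · exact noF_of (x := 3 * j + 2) hj' (by rw [h5]; rfl) (by omega) (by omega)
          · exact g3 r h5 j' hj'
        · have e5 : v = [lt' N (2 * j + 1)] ++ u := e3
          rw [e5, g4]
          rfl
      · subst h'
        exfalso
        have := List.cons.inj (show true :: (List.replicate h true ++ false :: α) = false :: β from e1)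
        simp at this

theorem lem_u (j : ℕ) (hj : j ≤ N) (μ : List (RR N)) : ∀ (h : ℕ) (α : List Bool)
    (v : List (Fin (2 * N + 2))),
    Comp (UM N) (List.replicate h true ++ false :: α, qs N (3 * j + 1), v) μ (fin' N) →
    ∃ s μ1 μ2 v2, 1 ≤ s + h ∧ μ = μ1 ++ μ2 ∧ μ1.length = 2 * s + h + 1 ∧ NoF μ1 ∧
      v = List.replicate s (lt' N (2 * j)) ++ (List.replicate (s + h) (lt' N (2 * j + 1)) ++ v2) ∧
      Comp (UM N) (bot N (j + 1) ++ α, qs N (3 * j + 3), v2) μ2 (fin' N) := by
  induction μ with
  | nil =>
    intro h α v hc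
    exfalso
    rcases comp_inv hc with ⟨_, he⟩ | ⟨r, μ', β, u, hr, hμ, e1, e2, e3, h4⟩
    · have this : List.replicate h true ++ false :: α = ([] : List Bool) :=
        congrArg Prod.fst he
      exact absurd (congrArg List.length this) (by simp)
    · exact absurd hμ (by simp)
  | cons r0 μ' ih =>
    intro h α v hc
    rcases comp_inv hc with ⟨he, _⟩ | ⟨r, μ'', β, u, hr, hμ, e1, e2, e3, h4⟩
    · exact absurd he (by simp)
    · obtain ⟨hμ1, hμ2⟩ := List.cons.inj hμ
      subst hμ1 hμ2
      have hA : ∀ b, r0 = rA N j b → ∃ s μ1 μ2 v2, 1 ≤ s + h ∧ r0 :: μ' = μ1 ++ μ2 ∧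
          μ1.length = 2 * s + h + 1 ∧ NoF μ1 ∧
          v = List.replicate s (lt' N (2 * j)) ++
            (List.replicate (s + h) (lt' N (2 * j + 1)) ++ v2) ∧
          Comp (UM N) (bot N (j + 1) ++ α, qs N (3 * j + 3), v2) μ2 (fin' N) := by
        intro b hb
        subst hb
        have e5 : List.replicate h true ++ false :: α = b :: β := e1
        have e6 : v = [lt' N (2 * j)] ++ u := e3
        obtain ⟨s, μ1, μ2, v2, g0, g1, g2, g3, g4, g5⟩ := ih (h + 1) α u (by
          rw [List.replicate_succ, List.cons_append, e5]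
          exact h4)
        refine ⟨s + 1, rA N j b :: μ1, μ2, v2, by omega, by rw [g1]; rfl, by
          simp only [List.length_cons, g2]; omega, ?_, ?_, g5⟩
        · intro r hr j' hj'
          rcases List.mem_cons.1 hr with h5 | h5
          · exact noF_of (x := 3 * j + 1) hj' (by rw [h5]; rfl) (by omega) (by omega)
          · exact g3 r h5 j' hj'
        · rw [e6, g4, show s + 1 + h = s + (h + 1) by omega]
          rfl
      rcases inv_u hr hj e2.symm with h' | h' | h'
      · exact hA false h'
      · exact hA true h'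
      · subst h'
        rcases h with _ | h
        · exfalso
          have := List.cons.inj (show false :: α = true :: β from e1)
          simp at this
        · have e4 : true = true ∧ List.replicate h true ++ false :: α = β :=
            List.cons.inj (show true :: (List.replicate h true ++ false :: α) = true :: β from e1)
          have e6 : v = [lt' N (2 * j + 1)] ++ u := e3
          obtain ⟨μ1, μ2, v2, g1, g2, g3, g4, g5⟩ := lem_v j hj h α u μ' (by
            rw [e4.2]
            exact h4)
          refine ⟨0, rB0 N j :: μ1, μ2, v2, by omega, by rw [g1]; rfl, by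
            simp only [List.length_cons, g2]; omega, ?_, ?_, g5⟩
          · intro r hr j' hj'
            rcases List.mem_cons.1 hr with h5 | h5
            · exact noF_of (x := 3 * j + 1) hj' (by rw [h5]; rfl) (by omega) (by omega)
            · exact g3 r h5 j' hj'
          · rw [e6, g4, List.replicate_zero, List.nil_append, Nat.zero_add]
            rfl

theorem lem_p (j : ℕ) (hj : j ≤ N) (v : List (Fin (2 * N + 2))) (μ : List (RR N))
    (hc : Comp (UM N) (bot N j, qs N (3 * j), v) μ (fin' N)) :
    ∃ i μ1 μ2 v2, 1 ≤ i ∧ μ = rF N j :: (μ1 ++ μ2) ∧ μ1.length = 2 * i + 1 ∧ NoF μ1 ∧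
      v = List.replicate i (lt' N (2 * j)) ++ (List.replicate i (lt' N (2 * j + 1)) ++ v2) ∧
      Comp (UM N) (bot N (j + 1), qs N (3 * (j + 1)), v2) μ2 (fin' N) := by
  have hb : bot N j = [false] := by simp [bot, hj]
  rw [hb] at hc
  rcases comp_inv hc with ⟨_, he⟩ | ⟨r, μ', β, u, hr, hμ, e1, e2, e3, h4⟩
  · exfalso
    have := congrArg Prod.fst he
    simp [fin'] at this
  · subst hμ
    have h' := inv_p hr hj e2.symm
    subst h'
    have e4 : false = false ∧ [] = β := List.cons.inj (show false :: [] = false :: β from e1)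
    have e6 : v = [] ++ u := e3
    have e5 := e4.2
    subst e5
    obtain ⟨s, μ1, μ2, v2, g0, g1, g2, g3, g4, g5⟩ := lem_u j hj μ' 0 [] u h4
    refine ⟨s, μ1, μ2, v2, by omega, congrArg (fun x => rF N j :: x) g1, by omega, g3, ?_, ?_⟩
    · rw [e6]
      simpa using g4
    · simpa [Nat.mul_add] using g5

/-- the word from letter `2j` on, `d` pairs of letters -/
def wf (N : ℕ) : ℕ → ℕ → ℕ → List (Fin (2 * N + 2))
  | _, 0, _ => []
  | j, d + 1, i => List.replicate i (lt' N (2 * j)) ++
      (List.replicate i (lt' N (2 * j + 1)) ++ wf N (j + 1) d i)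

theorem rF_inj {j j' : ℕ} (hj : j ≤ N) (hj' : j' ≤ N) (h : rF N j = rF N j') : j = j' := by
  have h1 : qs N (3 * j) = qs N (3 * j') := congrArg Rule.q h
  have h2 := congrArg Fin.val h1
  rw [qs_val N (by omega), qs_val N (by omega)] at h2
  omega

theorem sound (k : ℕ) (hk : 1 ≤ k) (d : ℕ) : ∀ (j : ℕ) (v : List (Fin (2 * N + 2)))
    (μ : List (RR N)), j + d = N + 1 →
    Comp (UM N) (bot N j, qs N (3 * j), v) μ (fin' N) → μ.length = d * k →
    (∀ l, l + 1 < d → ∃ r s, μ[l * k]? = some r ∧ μ[(l + 1) * k]? = some s ∧ (UM N).R r s) →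
    v = wf N j d (k / 2 - 1) ∧ (1 ≤ d → 4 ≤ k) := by
  induction d with
  | zero =>
    intro j v μ hjd hc hlen _
    rw [Nat.zero_mul] at hlen
    have : μ = [] := List.length_eq_zero_iff.1 hlen
    subst this
    rcases comp_inv hc with ⟨_, he⟩ | ⟨r, μ', β, u, hr, hμ, e1, e2, e3, h4⟩
    · have := congrArg (fun c => c.2.2) he
      exact ⟨this, by omega⟩
    · exact absurd hμ (by simp)
  | succ d ih =>
    intro j v μ hjd hc hlen hR
    have hj : j ≤ N := by omega
    obtain ⟨i, μ1, μ2, v2, hi, g1, g2, g3, g4, g5⟩ := lem_p j hj v μ hc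
    have hki : k = 2 * i + 2 := by
      rcases d with _ | d
      · -- last block
        have hj1 : j = N := by omega
        subst hj1
        have hb : bot j (j + 1) = [] := by simp [bot]
        rw [hb] at g5
        rcases comp_inv g5 with ⟨he, _⟩ | ⟨r, μ', β, u, hr, hμ, e1, e2, e3, h4⟩
        · have h2 : μ2.length = 0 := by rw [he]; rfl
          rw [g1] at hlen
          simp only [List.length_cons, List.length_append, g2, h2] at hlen
          omega
        · exact absurd e1 (by simp)
      · obtain ⟨r, s, e1, e2, ⟨j', hj', e3, e4⟩⟩ := hR 0 (by omega)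
        rw [Nat.zero_mul, g1] at e1
        simp only [List.getElem?_cons_zero, Option.some.injEq] at e1
        have hjj : j = j' := rF_inj hj (by omega) (by rw [e1, e3])
        subst hjj
        rw [Nat.zero_add, Nat.one_mul, g1] at e2
        obtain ⟨k', rfl⟩ : ∃ k', k = k' + 1 := ⟨k - 1, by omega⟩
        rw [List.getElem?_cons_succ] at e2
        by_cases hlt : k' < μ1.length
        · exfalso
          rw [List.getElem?_append_left hlt] at e2
          exact g3 s (List.mem_of_getElem? e2) (j + 1) (by omega) e4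
        · rw [List.getElem?_append_right (by omega)] at e2
          obtain ⟨i', μ1', μ2', v2', hi', g1', g2', g3', g4', g5'⟩ := lem_p (j + 1) (by omega) v2 μ2 g5
          rw [g1'] at e2
          rcases Nat.eq_zero_or_pos (k' - μ1.length) with h0 | h0
          · omega
          · exfalso
            obtain ⟨t, ht⟩ : ∃ t, k' - μ1.length = t + 1 := ⟨k' - μ1.length - 1, by omega⟩
            rw [ht, List.getElem?_cons_succ] at e2
            have hmem := List.mem_of_getElem? e2
            rcases List.mem_append.1 hmem with h5 | h5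
            · exact g3' s h5 (j + 1) (by omega) e4
            · have h6 := comp_mono g5' s h5
              simp only at h6
              rw [e4] at h6
              simp only [rF] at h6
              rw [qs_val N (by omega), qs_val N (by omega)] at h6
              omega
    have hlen2 : μ2.length = d * k := by
      rw [g1] at hlen
      simp only [List.length_cons, List.length_append, g2] at hlen
      have : (d + 1) * k = d * k + k := Nat.succ_mul _ _
      omega
    have hshift : ∀ t, μ2[t]? = μ[t + k]? := by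
      intro t
      rw [g1, show t + k = (t + (2 * i + 1)) + 1 by omega, List.getElem?_cons_succ,
        List.getElem?_append_right (by omega), g2]
      congr 1
      omega
    obtain ⟨h1, _⟩ := ih (j + 1) v2 μ2 (by omega) g5 hlen2 (by
      intro l hl
      obtain ⟨r, s, e1, e2, e3⟩ := hR (l + 1) (by omega)
      refine ⟨r, s, ?_, ?_, e3⟩
      · rw [hshift, ← e1]; congr 1; ring
      · rw [hshift, ← e2]; congr 1; ring)
    have hk2 : k / 2 - 1 = i := by omega
    refine ⟨?_, by omega⟩
    rw [g4, h1, hk2]
    rfl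

/-! ### the accepting computations -/

def front (N j i : ℕ) : List (RR N) :=
  rF N j :: (rA N j false :: (List.replicate i (rA N j true) ++
    (rB0 N j :: List.replicate i (rB1 N j))))

theorem front_length (j i : ℕ) : (front N j i).length = 2 * i + 3 := by
  simp only [front, List.length_cons, List.length_append, List.length_replicate]; omega

def full (N : ℕ) : ℕ → ℕ → ℕ → List (RR N)
  | _, 0, _ => []
  | j, d + 1, i => front N j i ++ (rE N j :: full N (j + 1) d i)

theorem full_length (d i : ℕ) : ∀ j, (full N j d i).length = d * (2 * i + 4) := by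
  induction d with
  | zero => intro j; simp [full]
  | succ d ih =>
    intro j
    simp only [full, List.length_append, List.length_cons, front_length, ih]
    ring

theorem comp_A (j : ℕ) (hj : j ≤ N) (s : ℕ) : ∀ (β : List Bool) (v : List (Fin (2 * N + 2))),
    Comp (UM N) (true :: β, qs N (3 * j + 1), List.replicate s (lt' N (2 * j)) ++ v)
      (List.replicate s (rA N j true))
      (List.replicate s true ++ true :: β, qs N (3 * j + 1), v) := by
  induction s with
  | zero => intro β v; exact Comp.nil _
  | succ s ih =>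
    intro β v
    have h := ih (true :: β) v
    have e : List.replicate s true ++ true :: true :: β =
        List.replicate (s + 1) true ++ true :: β := by
      rw [List.replicate_succ', List.append_assoc]; rfl
    rw [e] at h
    exact Comp.cons (M := UM N) (rA N j true) (mem_rA hj true) β _ _ _ h

theorem comp_B (j : ℕ) (hj : j ≤ N) (s : ℕ) : ∀ (β : List Bool) (v : List (Fin (2 * N + 2))),
    Comp (UM N) (List.replicate s true ++ β, qs N (3 * j + 2),
        List.replicate s (lt' N (2 * j + 1)) ++ v)
      (List.replicate s (rB1 N j)) (β, qs N (3 * j + 2), v) := by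
  induction s with
  | zero => intro β v; exact Comp.nil _
  | succ s ih =>
    intro β v
    exact Comp.cons (M := UM N) (rB1 N j) (mem_rB1 hj) _ _ _ _ (ih β v)

theorem comp_phase (j : ℕ) (hj : j ≤ N) (i : ℕ) (v : List (Fin (2 * N + 2))) :
    Comp (UM N) (bot N j, qs N (3 * j), List.replicate (i + 1) (lt' N (2 * j)) ++
        (List.replicate (i + 1) (lt' N (2 * j + 1)) ++ v))
      (front N j i ++ [rE N j]) (bot N (j + 1), qs N (3 * j + 3), v) := by
  have hb : bot N j = [false] := by simp [bot, hj]
  rw [hb]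
  have h5 : Comp (UM N) ([false], qs N (3 * j + 2), v) [rE N j]
      (bot N (j + 1), qs N (3 * j + 3), v) := by
    have := Comp.cons (M := UM N) (rE N j) (mem_rE hj) [] v [] _ (Comp.nil _)
    simp only [List.append_nil] at this
    exact this
  have h4 := comp_B j hj i [false] v
  have h3 : Comp (UM N) (List.replicate i true ++ true :: [false], qs N (3 * j + 1),
      List.replicate (i + 1) (lt' N (2 * j + 1)) ++ v)
      (rB0 N j :: List.replicate i (rB1 N j)) ([false], qs N (3 * j + 2), v) := by
    have e : List.replicate i true ++ true :: [false] =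
        true :: (List.replicate i true ++ [false]) := by
      have := List.replicate_succ' (n := i) (a := true)
      rw [List.replicate_succ] at this
      rw [← List.cons_append, this, List.append_assoc]; rfl
    rw [e]
    exact Comp.cons (M := UM N) (rB0 N j) (mem_rB0 hj) _ _ _ _ h4
  have h2 := comp_A j hj i [false] (List.replicate (i + 1) (lt' N (2 * j + 1)) ++ v)
  have h23 := h2.append h3
  have h1 := Comp.cons (M := UM N) (rA N j false) (mem_rA hj false) [] _ _ _ h23
  have h0 := Comp.cons (M := UM N) (rF N j) (mem_rF hj) [] _ _ _ h1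
  exact h0.append h5

theorem comp_full (i d : ℕ) : ∀ j, j + d = N + 1 →
    Comp (UM N) (bot N j, qs N (3 * j), wf N j d (i + 1)) (full N j d i) (fin' N) := by
  induction d with
  | zero =>
    intro j hj
    have hj' : j = N + 1 := by omega
    subst hj'
    have hb : bot N (N + 1) = [] := by simp [bot]
    rw [hb]
    exact Comp.nil _
  | succ d ih =>
    intro j hj
    have h1 := comp_phase j (by omega) i (wf N (j + 1) d (i + 1))
    have h2 := ih (j + 1) (by omega)
    have h3 := h1.append h2
    rw [show full N j (d + 1) i = (front N j i ++ [rE N j]) ++ full N (j + 1) d i by simp [full]]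
    exact h3

theorem full_get (i d : ℕ) : ∀ j l, l < d →
    (full N j d i)[l * (2 * i + 4)]? = some (rF N (j + l)) := by
  induction d with
  | zero => intro j l hl; omega
  | succ d ih =>
    intro j l hl
    rcases l with _ | l
    · simp [full, front]
    · have h := ih (j + 1) l (by omega)
      have hm : (l + 1) * (2 * i + 4) = l * (2 * i + 4) + (2 * i + 4) := Nat.succ_mul _ _
      simp only [full]
      rw [List.getElem?_append_right (by rw [front_length]; omega), front_length]
      have e : (l + 1) * (2 * i + 4) - (2 * i + 3) = l * (2 * i + 4) + 1 := by omega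
      rw [e, List.getElem?_cons_succ, h]
      congr 2
      omega

theorem full_turn (i : ℕ) : (full N 0 (N + 1) i)[2 * i + 4 - 1]? = some (rE N 0) := by
  simp only [full]
  rw [List.getElem?_append_right (by rw [front_length]; omega), front_length,
    show 2 * i + 4 - 1 - (2 * i + 3) = 0 by omega]
  rfl

theorem full_noturn (i t : ℕ) (ht : t < 2 * i + 4 - 1) (r : RR N)
    (hr : (full N 0 (N + 1) i)[t]? = some r) : r.p ≠ qs N 3 := by
  simp only [full] at hr
  rw [List.getElem?_append_left (by rw [front_length]; omega)] at hr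
  have hmem := List.mem_of_getElem? hr
  have h3 : ∀ x, x < 3 → qs N x ≠ qs N 3 := by
    intro x hx he
    have := congrArg Fin.val he
    rw [qs_val N (by omega), qs_val N (by omega)] at this
    omega
  simp only [front, List.mem_cons, List.mem_append, List.mem_replicate] at hmem
  rcases hmem with h | h | ⟨_, h⟩ | h | ⟨_, h⟩ <;> subst h
  · exact h3 _ (by omega)
  · exact h3 _ (by omega)
  · exact h3 _ (by omega)
  · exact h3 _ (by omega)
  · exact h3 _ (by omega)

theorem wf_eq (i d : ℕ) : ∀ j, wf N j d i =
    (List.range' (2 * j) (2 * d)).flatMap (fun x => List.replicate i (lt' N x)) := by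
  induction d with
  | zero => intro j; rfl
  | succ d ih =>
    intro j
    rw [show 2 * (d + 1) = 2 * d + 1 + 1 by ring, List.range'_succ, List.range'_succ]
    simp only [wf, List.flatMap_cons, ih]
    rw [show 2 * (j + 1) = 2 * j + 1 + 1 by ring]

theorem word_eq (i : ℕ) : word (2 * N + 2) i = wf N 0 (N + 1) i := by
  have h : List.finRange (2 * N + 2) = (List.range (2 * N + 2)).map (lt' N) := by
    apply List.ext_getElem
    · simp
    · intro x h1 h2
      simp only [List.getElem_finRange, List.getElem_map, List.getElem_range]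
      apply Fin.ext
      simp only [List.length_finRange] at h1
      simp only [lt', Fin.ofNat, Fin.val_cast]
      exact (Nat.mod_eq_of_lt h1).symm
  rw [wf_eq, word, h, List.flatMap_map, List.range_eq_range']
  rfl

/-- `{a₀ⁱ ⋯ a_{2N+1}ⁱ : i ≥ 1}` needs at most `N` turns. -/
theorem upper (N : ℕ) : Lm (2 * N + 2) ∈ FSPDA (Fin (2 * N + 2)) N := by
  refine ⟨UM N, ?_⟩
  ext w
  constructor
  · rintro ⟨i, hi, rfl⟩
    obtain ⟨i, rfl⟩ : ∃ i', i = i' + 1 := ⟨i - 1, by omega⟩
    rw [word_eq]
    have hc := comp_full (N := N) i (N + 1) 0 (by omega)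
    have hb : bot N 0 = [false] := by simp [bot]
    rw [hb] at hc
    refine ⟨full N 0 (N + 1) i, qs N (3 * N + 3), 2 * i + 4, rfl, hc, by omega, full_length _ _ _,
      ⟨rE N 0, full_turn i, rfl⟩, fun t ht r hr => full_noturn i t ht r hr, ?_⟩
    intro j hj
    have h1 := full_get (N := N) i (N + 1) 0 j (by omega)
    have h2 := full_get (N := N) i (N + 1) 0 (j + 1) (by omega)
    rw [Nat.zero_add] at h1 h2
    exact ⟨rF N j, rF N (j + 1), h1, h2, j, hj, rfl, rfl⟩
  · rintro ⟨μ, f, k, hf, hc, hk, hlen, _, _, hR⟩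
    have hf' : f = qs N (3 * N + 3) := hf
    subst hf'
    have hb : bot N 0 = [false] := by simp [bot]
    obtain ⟨h1, h2⟩ := sound k hk (N + 1) 0 w μ (by omega) (by rw [hb]; exact hc) hlen
      (fun l hl => hR l (by omega))
    have h3 := h2 (by omega)
    exact ⟨k / 2 - 1, by omega, by rw [word_eq]; exact h1⟩

end Pool.Agent.X247.SR
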